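import Pool.Agent.KS6_28.HC.Gen

/-!
# A configuration of logarithmic size which forces the characteristic
-/

set_option autoImplicit false

namespace Pool.Agent.KS6_28.HC

section points

variable {k : Type*} [CommRing k]

/-- the points `(x, 0)` -/
def pa (x : k) : Fin 3 → k := ![x, 0, 1]
/-- the points `(x, 1)` -/
def pb (x : k) : Fin 3 → k := ![x, 1, 1]
/-- the directions `(- x, 1)` -/
def pd (x : k) : Fin 3 → k := ![-x, 1, 0]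
/-- the direction `(1, 0)` -/
def pe : Fin 3 → k := ![1, 0, 0]
/-- the line `Y = 0` -/
def l0 : Fin 3 → k := ![0, 1, 0]
/-- the line `Y = 1` -/
def l1 : Fin 3 → k := ![0, 1, -1]
/-- the line at infinity -/
def li : Fin 3 → k := ![0, 0, 1]
/-- the line `X = x` -/
def lv (x : k) : Fin 3 → k := ![1, 0, -x]
/-- the line `X = Y + x` -/
def lu (x : k) : Fin 3 → k := ![1, -1, -x]
/-- the line through `(x, 0)` and `(0, 1)` -/
def lc (x : k) : Fin 3 → k := ![1, x, -x]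
/-- the line through `(x, 1)` and `(2 x, 0)` -/
def ld (x : k) : Fin 3 → k := ![1, x, -(2 * x)]

end points

/-- `Ω` realizes the collinearities of the points in `S` which are on lines in `𝓛` -/
structure RS {k F : Type*} [Field k] [Field F] (S 𝓛 : Set (Fin 3 → k))
    (Ω : (Fin 3 → k) → Fin 3 → F) : Prop where
  col : ∀ t ∈ 𝓛, ∀ a ∈ S, ∀ b ∈ S, ∀ c ∈ S, dt t a = 0 → dt t b = 0 → dt t c = 0 →
    d3 (Ω a) (Ω b) (Ω c) = 0
  non : ∀ a ∈ S, ∀ b ∈ S, ∀ c ∈ S, d3 a b c ≠ 0 → d3 (Ω a) (Ω b) (Ω c) ≠ 0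

/-- the frame -/
structure Fr {k F : Type*} [Field k] [Field F] (S 𝓛 : Set (Fin 3 → k))
    (Ω : (Fin 3 → k) → Fin 3 → F) : Prop extends RS S 𝓛 Ω where
  eS : pe ∈ S
  vS : pd 0 ∈ S
  uS : pd (-1) ∈ S
  aS : pa 0 ∈ S
  bS : pb 0 ∈ S
  l0S : l0 ∈ 𝓛
  l1S : l1 ∈ 𝓛
  liS : li ∈ 𝓛
  e1 : Ω pe 1 = 0
  e2 : Ω pe 2 = 0
  v0 : Ω (pd 0) 0 = 0
  v2 : Ω (pd 0) 2 = 0
  a0 : Ω (pa 0) 0 = 0
  a1 : Ω (pa 0) 1 = 0
  u01 : Ω (pd (-1)) 0 = Ω (pd (-1)) 1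
  b12 : Ω (pb 0) 1 = Ω (pb 0) 2

section core

variable {k F : Type*} [Field k] [Field F] {S 𝓛 : Set (Fin 3 → k)}
  {Ω : (Fin 3 → k) → Fin 3 → F}

/-- the point `(x, 0)` of the configuration has the coordinate `ξ` in the realization -/
def IsA (Ω : (Fin 3 → k) → Fin 3 → F) (x : k) (ξ : F) : Prop :=
  Ω (pa x) 1 = 0 ∧ Ω (pa x) 2 ≠ 0 ∧ Ω (pa x) 0 = ξ * Ω (pa x) 2

/-- the point `(x, 1)` of the configuration has the coordinate `ξ` in the realization -/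
def IsB (Ω : (Fin 3 → k) → Fin 3 → F) (x : k) (ξ : F) : Prop :=
  Ω (pb x) 1 = Ω (pb x) 2 ∧ Ω (pb x) 2 ≠ 0 ∧ Ω (pb x) 0 = ξ * Ω (pb x) 2

theorem Fr.nz (h : Fr S 𝓛 Ω) : Ω pe 0 ≠ 0 ∧ Ω (pd 0) 1 ≠ 0 ∧ Ω (pa 0) 2 ≠ 0 := by
  have h1 := h.non pe h.eS (pd 0) h.vS (pa 0) h.aS (by simp [d3_def, pe, pd, pa])
  rw [d3_def] at h1
  rw [h.e1, h.e2, h.v0, h.v2, h.a0, h.a1] at h1
  simp only [mul_zero, zero_mul, sub_zero, add_zero] at h1
  refine ⟨left_ne_zero_of_mul h1, ?_, ?_⟩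
  · exact left_ne_zero_of_mul (right_ne_zero_of_mul h1)
  · exact right_ne_zero_of_mul (right_ne_zero_of_mul h1)

theorem Fr.u (h : Fr S 𝓛 Ω) : Ω (pd (-1)) 2 = 0 ∧ Ω (pd (-1)) 1 ≠ 0 := by
  obtain ⟨n1, n2, n3⟩ := h.nz
  have h1 := h.col li h.liS pe h.eS (pd 0) h.vS (pd (-1)) h.uS (by simp [dt_def, pe, li])
    (by simp [dt_def, pd, li]) (by simp [dt_def, pd, li])
  have h2 := h.non pe h.eS (pd (-1)) h.uS (pa 0) h.aS (by simp [d3_def, pe, pd, pa])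
  rw [d3_def] at h1 h2
  rw [h.e1, h.e2, h.v0, h.v2] at h1
  rw [h.e1, h.e2, h.a0, h.a1] at h2
  simp only [mul_zero, zero_mul, sub_zero, add_zero, zero_sub] at h1 h2
  constructor
  · rcases mul_eq_zero.1 h1 with h3 | h3
    · exact absurd h3 n1
    · exact (mul_eq_zero.1 h3).resolve_left n2
  · exact left_ne_zero_of_mul (right_ne_zero_of_mul h2)

theorem Fr.b (h : Fr S 𝓛 Ω) (hl : lv 0 ∈ 𝓛) : Ω (pb 0) 0 = 0 ∧ Ω (pb 0) 2 ≠ 0 := by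
  obtain ⟨n1, n2, n3⟩ := h.nz
  have h1 := h.col (lv 0) hl (pd 0) h.vS (pa 0) h.aS (pb 0) h.bS (by simp [dt_def, pd, lv])
    (by simp [dt_def, pa, lv]) (by simp [dt_def, pb, lv])
  have h2 := h.non pe h.eS (pd 0) h.vS (pb 0) h.bS (by simp [d3_def, pe, pd, pb])
  rw [d3_def] at h1 h2
  rw [h.v0, h.v2, h.a0, h.a1] at h1
  rw [h.e1, h.e2, h.v0, h.v2] at h2
  simp only [mul_zero, zero_mul, sub_zero, add_zero, zero_add, zero_sub] at h1 h2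
  constructor
  · rcases mul_eq_zero.1 h1 with h3 | h3
    · exact absurd h3 n2
    · exact (mul_eq_zero.1 h3).resolve_left n3
  · exact right_ne_zero_of_mul (right_ne_zero_of_mul h2)

theorem Fr.A_zero (h : Fr S 𝓛 Ω) : IsA Ω 0 (0 : F) :=
  ⟨h.a1, h.nz.2.2, by rw [h.a0, zero_mul]⟩

/-- points on the line `Y = 0` -/
theorem Fr.A1 (h : Fr S 𝓛 Ω) {x : k} (hx : pa x ∈ S) :
    Ω (pa x) 1 = 0 ∧ Ω (pa x) 2 ≠ 0 := by
  obtain ⟨n1, n2, n3⟩ := h.nz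
  have h1 := h.col l0 h.l0S pe h.eS (pa x) hx (pa 0) h.aS (by simp [dt_def, pe, l0])
    (by simp [dt_def, pa, l0]) (by simp [dt_def, pa, l0])
  have h2 := h.non pe h.eS (pd 0) h.vS (pa x) hx (by simp [d3_def, pe, pd, pa])
  rw [d3_def] at h1 h2
  rw [h.e1, h.e2, h.a0, h.a1] at h1
  rw [h.e1, h.e2, h.v0, h.v2] at h2
  simp only [mul_zero, zero_mul, sub_zero, add_zero, zero_sub] at h1 h2
  constructor
  · rcases mul_eq_zero.1 h1 with h3 | h3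
    · exact absurd h3 n1
    · exact (mul_eq_zero.1 h3).resolve_right n3
  · exact right_ne_zero_of_mul (right_ne_zero_of_mul h2)

/-- points on the line `Y = 1` -/
theorem Fr.B1 (h : Fr S 𝓛 Ω) (hl : lv 0 ∈ 𝓛) {x : k} (hx : pb x ∈ S) :
    Ω (pb x) 1 = Ω (pb x) 2 ∧ Ω (pb x) 2 ≠ 0 := by
  obtain ⟨n1, n2, n3⟩ := h.nz
  obtain ⟨b1, b2⟩ := h.b hl
  have h1 := h.col l1 h.l1S pe h.eS (pb x) hx (pb 0) h.bS (by simp [dt_def, pe, l1])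
    (by simp [dt_def, pb, l1]) (by simp [dt_def, pb, l1])
  have h2 := h.non pe h.eS (pd 0) h.vS (pb x) hx (by simp [d3_def, pe, pd, pb])
  rw [d3_def] at h1 h2
  rw [h.e1, h.e2, h.b12] at h1
  rw [h.e1, h.e2, h.v0, h.v2] at h2
  simp only [mul_zero, zero_mul, sub_zero, add_zero, zero_sub] at h1 h2
  constructor
  · rcases mul_eq_zero.1 h1 with h3 | h3
    · exact absurd h3 n1
    · have h4 : (Ω (pb x) 1 - Ω (pb x) 2) * Ω (pb 0) 2 = 0 := by linear_combination h3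
      exact sub_eq_zero.1 ((mul_eq_zero.1 h4).resolve_right b2)
  · exact right_ne_zero_of_mul (right_ne_zero_of_mul h2)

theorem Fr.A_to_B (h : Fr S 𝓛 Ω) (hl0 : lv 0 ∈ 𝓛) {x : k} {ξ : F} (ha : pa x ∈ S)
    (hb : pb x ∈ S) (hl : lv x ∈ 𝓛) (hA : IsA Ω x ξ) : IsB Ω x ξ := by
  obtain ⟨n1, n2, n3⟩ := h.nz
  obtain ⟨b1, b2⟩ := h.B1 hl0 hb
  obtain ⟨c1, c2, c3⟩ := hA
  refine ⟨b1, b2, ?_⟩
  have h1 := h.col (lv x) hl (pd 0) h.vS (pa x) ha (pb x) hb (by simp [dt_def, pd, lv])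
    (by simp [dt_def, pa, lv]) (by simp [dt_def, pb, lv])
  rw [d3_def] at h1
  rw [h.v0, h.v2, c1, c3] at h1
  have h2 : Ω (pd 0) 1 * Ω (pa x) 2 * (Ω (pb x) 0 - ξ * Ω (pb x) 2) = 0 := by
    linear_combination h1
  exact sub_eq_zero.1 ((mul_eq_zero.1 h2).resolve_left (mul_ne_zero n2 c2))

theorem Fr.B_to_A (h : Fr S 𝓛 Ω) {x : k} {ξ : F} (ha : pa x ∈ S)
    (hb : pb x ∈ S) (hl : lv x ∈ 𝓛) (hB : IsB Ω x ξ) : IsA Ω x ξ := by
  obtain ⟨n1, n2, n3⟩ := h.nz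
  obtain ⟨b1, b2⟩ := h.A1 ha
  obtain ⟨c1, c2, c3⟩ := hB
  refine ⟨b1, b2, ?_⟩
  have h1 := h.col (lv x) hl (pd 0) h.vS (pa x) ha (pb x) hb (by simp [dt_def, pd, lv])
    (by simp [dt_def, pa, lv]) (by simp [dt_def, pb, lv])
  rw [d3_def] at h1
  rw [h.v0, h.v2, c1, c3] at h1
  have h2 : Ω (pd 0) 1 * Ω (pb x) 2 * (Ω (pa x) 0 - ξ * Ω (pa x) 2) = 0 := by
    linear_combination -h1
  exact sub_eq_zero.1 ((mul_eq_zero.1 h2).resolve_left (mul_ne_zero n2 c2))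

/-- adding one -/
theorem Fr.diag (h : Fr S 𝓛 Ω) (hl0 : lv 0 ∈ 𝓛) {x y : k} {ξ : F} (hy : y = x + 1)
    (ha : pa x ∈ S) (hb : pb y ∈ S) (hl : lu x ∈ 𝓛) (hA : IsA Ω x ξ) : IsB Ω y (ξ + 1) := by
  obtain ⟨n1, n2, n3⟩ := h.nz
  obtain ⟨b1, b2⟩ := h.B1 hl0 hb
  obtain ⟨c1, c2, c3⟩ := hA
  obtain ⟨u2, u1⟩ := h.u
  refine ⟨b1, b2, ?_⟩
  have h1 := h.col (lu x) hl (pa x) ha (pd (-1)) h.uS (pb y) hb (by simp [dt_def, pa, lu])
    (by simp [dt_def, pd, lu]) (by simp [dt_def, pb, lu, hy])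
  rw [d3_def] at h1
  rw [u2, c1, c3, b1, h.u01] at h1
  have h2 : Ω (pa x) 2 * Ω (pd (-1)) 1 * (Ω (pb y) 0 - (ξ + 1) * Ω (pb y) 2) = 0 := by
    linear_combination -h1
  exact sub_eq_zero.1 ((mul_eq_zero.1 h2).resolve_left (mul_ne_zero c2 u1))

/-- doubling -/
theorem Fr.dbl (h : Fr S 𝓛 Ω) (hl0 : lv 0 ∈ 𝓛) {x : k} {ξ : F} (ha : pa x ∈ S)
    (hb : pb x ∈ S) (hd : pd x ∈ S) (h2a : pa (2 * x) ∈ S) (hlc : lc x ∈ 𝓛) (hld : ld x ∈ 𝓛)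
    (hA : IsA Ω x ξ) (hB : IsB Ω x ξ) : IsA Ω (2 * x) (2 * ξ) := by
  obtain ⟨n1, n2, n3⟩ := h.nz
  obtain ⟨b1, b2⟩ := h.A1 h2a
  obtain ⟨c1, c2, c3⟩ := hA
  obtain ⟨d1, d2, d3'⟩ := hB
  obtain ⟨f0, f2⟩ := h.b hl0
  -- the direction
  have g1 := h.col li h.liS pe h.eS (pd 0) h.vS (pd x) hd (by simp [dt_def, pe, li])
    (by simp [dt_def, pd, li]) (by simp [dt_def, pd, li])
  have g2 := h.non pe h.eS (pd x) hd (pa 0) h.aS (by simp [d3_def, pe, pd, pa])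
  have g3 := h.col (lc x) hlc (pa x) ha (pb 0) h.bS (pd x) hd (by simp [dt_def, pa, lc])
    (by simp [dt_def, pb, lc]) (by simp [dt_def, pd, lc])
  have g4 := h.col (ld x) hld (pb x) hb (pd x) hd (pa (2 * x)) h2a
    (by simp [dt_def, pb, ld]; ring) (by simp [dt_def, pd, ld]) (by simp [dt_def, pa, ld])
  rw [d3_def] at g1 g2 g3 g4
  rw [h.e1, h.e2, h.v0, h.v2] at g1
  rw [h.e1, h.e2, h.a0, h.a1] at g2
  simp only [mul_zero, zero_mul, sub_zero, add_zero, zero_sub] at g1 g2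
  have k2 : Ω (pd x) 2 = 0 := by
    rcases mul_eq_zero.1 g1 with h3 | h3
    · exact absurd h3 n1
    · exact (mul_eq_zero.1 h3).resolve_left n2
  have k1 : Ω (pd x) 1 ≠ 0 := left_ne_zero_of_mul (right_ne_zero_of_mul g2)
  rw [c1, c3, f0, h.b12, k2] at g3
  have k0 : Ω (pd x) 0 = - ξ * Ω (pd x) 1 := by
    have h2 : Ω (pa x) 2 * Ω (pb 0) 2 * (Ω (pd x) 0 + ξ * Ω (pd x) 1) = 0 := by
      linear_combination -g3
    have := (mul_eq_zero.1 h2).resolve_left (mul_ne_zero c2 f2)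
    linear_combination this
  rw [d1, d3', k2, k0, b1] at g4
  refine ⟨b1, b2, ?_⟩
  have h2 : Ω (pb x) 2 * Ω (pd x) 1 * (Ω (pa (2 * x)) 0 - 2 * ξ * Ω (pa (2 * x)) 2) = 0 := by
    linear_combination -g4
  exact sub_eq_zero.1 ((mul_eq_zero.1 h2).resolve_left (mul_ne_zero d2 k1))

/-- the chain of the doublings -/
theorem Fr.chain (h : Fr S 𝓛 Ω) (p R : ℕ) (hp : p ≠ 0) (hR : p < 2 ^ (R + 1))
    (hpk : (p : k) = 0)
    (hS : ∀ j ≤ R, pa (((p / 2 ^ j : ℕ)) : k) ∈ S ∧ pb (((p / 2 ^ j : ℕ)) : k) ∈ S ∧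
      pd (((p / 2 ^ j : ℕ)) : k) ∈ S ∧ pa (2 * (((p / 2 ^ j : ℕ)) : k)) ∈ S)
    (hL : ∀ j ≤ R, lv (((p / 2 ^ j : ℕ)) : k) ∈ 𝓛 ∧ lu (2 * (((p / 2 ^ j : ℕ)) : k)) ∈ 𝓛 ∧
      lc (((p / 2 ^ j : ℕ)) : k) ∈ 𝓛 ∧ ld (((p / 2 ^ j : ℕ)) : k) ∈ 𝓛) : (p : F) = 0 := by
  have hx0 : (((p / 2 ^ 0 : ℕ)) : k) = 0 := by rw [pow_zero, Nat.div_one, hpk]
  have hl0 : lv (0 : k) ∈ 𝓛 := by
    have := (hL 0 (Nat.zero_le _)).1
    rwa [hx0] at this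
  have hlu0 : lu (0 : k) ∈ 𝓛 := by
    have := (hL 0 (Nat.zero_le _)).2.1
    rwa [hx0, mul_zero] at this
  set r := Nat.log 2 p with hr
  have hrR : r ≤ R := by
    have := Nat.log_lt_of_lt_pow hp hR
    omega
  have hr1 : p / 2 ^ r = 1 := by
    have h1 := Nat.pow_log_le_self 2 hp
    have h2 := Nat.lt_pow_succ_log_self (b := 2) (by norm_num) p
    rw [← hr] at h1 h2
    apply Nat.div_eq_of_lt_le
    · linarith
    · rw [pow_succ] at h2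
      linarith
  have main : ∀ i ≤ r, IsA Ω (((p / 2 ^ (r - i) : ℕ)) : k) (((p / 2 ^ (r - i) : ℕ)) : F) ∧
      IsB Ω (((p / 2 ^ (r - i) : ℕ)) : k) (((p / 2 ^ (r - i) : ℕ)) : F) := by
    intro i
    induction i with
    | zero =>
      intro _
      obtain ⟨s1, s2, s3, s4⟩ := hS r hrR
      obtain ⟨t1, t2, t3, t4⟩ := hL r hrR
      rw [Nat.sub_zero, hr1] at *
      rw [Nat.cast_one] at s1 s2 s3 s4 t1 t2 t3 t4
      rw [Nat.cast_one, Nat.cast_one]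
      have e1 : IsB Ω (1 : k) ((0 : F) + 1) :=
        h.diag hl0 (zero_add 1).symm h.aS s2 hlu0 h.A_zero
      rw [zero_add] at e1
      exact ⟨h.B_to_A s1 s2 t1 e1, e1⟩
    | succ i ih =>
      intro hi
      obtain ⟨i1, i2⟩ := ih (by omega)
      obtain ⟨s1, s2, s3, s4⟩ := hS (r - i) (by omega)
      obtain ⟨t1, t2, t3, t4⟩ := hL (r - i) (by omega)
      obtain ⟨s1', s2', s3', s4'⟩ := hS (r - (i + 1)) (by omega)
      obtain ⟨t1', t2', t3', t4'⟩ := hL (r - (i + 1)) (by omega)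
      have e0 : r - i = (r - (i + 1)) + 1 := by omega
      have e1 : p / 2 ^ (r - i) = p / 2 ^ (r - (i + 1)) / 2 := by
        rw [e0, pow_succ, Nat.div_div_eq_div_mul]
      set y := p / 2 ^ (r - (i + 1)) with hy
      set x := p / 2 ^ (r - i) with hx
      have hA2 := h.dbl hl0 s1 s2 s3 s4 t3 t4 i1 i2
      rcases Nat.even_or_odd' y with ⟨c, hc | hc⟩
      · have hxc : x = c := by rw [e1, hc]; omega
        have ek : ((y : ℕ) : k) = 2 * ((x : ℕ) : k) := by rw [hc, hxc]; push_cast; ring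
        have eF : ((y : ℕ) : F) = 2 * ((x : ℕ) : F) := by rw [hc, hxc]; push_cast; ring
        rw [← ek, ← eF] at hA2
        exact ⟨hA2, h.A_to_B hl0 s1' s2' t1' hA2⟩
      · have hxc : x = c := by rw [e1, hc]; omega
        have ek : ((y : ℕ) : k) = 2 * ((x : ℕ) : k) + 1 := by rw [hc, hxc]; push_cast; ring
        have eF : ((y : ℕ) : F) = 2 * ((x : ℕ) : F) + 1 := by rw [hc, hxc]; push_cast; ring
        have hB := h.diag hl0 ek s4 s2' t2 hA2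
        rw [← eF] at hB
        exact ⟨h.B_to_A s1' s2' t1' hB, hB⟩
  have hfin := (main r le_rfl).1
  rw [Nat.sub_self, hx0, pow_zero, Nat.div_one] at hfin
  obtain ⟨_, q2, q3⟩ := hfin
  rw [h.a0] at q3
  exact (mul_eq_zero.1 q3.symm).resolve_right q2

end core

end Pool.Agent.KS6_28.HC
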