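import Pool.Agent.KS6_28.HC.Pad
import Pool.Agent.KS6_28.HC.Chain

/-!
# The basic configurations
-/

set_option autoImplicit false

namespace Pool.Agent.KS6_28.HC

open Classical in
/-- the points of the configuration -/
noncomputable def ptsF (k : Type) [Field k] (p R : ℕ) : Finset (Fin 3 → k) :=
  {pe, pd (-1)} ∪ (Finset.range (R + 1)).biUnion fun j =>
    {pa ((p / 2 ^ j : ℕ) : k), pb ((p / 2 ^ j : ℕ) : k), pd ((p / 2 ^ j : ℕ) : k),
      pa (2 * ((p / 2 ^ j : ℕ) : k))}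

/-- the lines of the configuration -/
def linF (k : Type) [Field k] (p R : ℕ) : Fin 3 ⊕ (Fin (R + 1) × Fin 4) → Fin 3 → k
  | Sum.inl c => ![l0, l1, li] c
  | Sum.inr q => ![lv ((p / 2 ^ (q.1 : ℕ) : ℕ) : k), lu (2 * ((p / 2 ^ (q.1 : ℕ) : ℕ) : k)),
      lc ((p / 2 ^ (q.1 : ℕ) : ℕ) : k), ld ((p / 2 ^ (q.1 : ℕ) : ℕ) : k)] q.2

section

variable {k : Type} [Field k] {p R : ℕ}

theorem mem_ptsF {x : Fin 3 → k} : x ∈ ptsF k p R ↔ x = pe ∨ x = pd (-1) ∨ ∃ j ≤ R,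
    x = pa ((p / 2 ^ j : ℕ) : k) ∨ x = pb ((p / 2 ^ j : ℕ) : k) ∨ x = pd ((p / 2 ^ j : ℕ) : k) ∨
      x = pa (2 * ((p / 2 ^ j : ℕ) : k)) := by
  unfold ptsF
  simp only [Finset.mem_union, Finset.mem_insert, Finset.mem_singleton, Finset.mem_biUnion,
    Finset.mem_range, Nat.lt_succ_iff, or_assoc]

theorem card_ptsF : (ptsF k p R).card ≤ 4 * R + 6 := by
  classical
  unfold ptsF
  refine (Finset.card_union_le _ _).trans ?_
  have h1 : ({pe, pd (-1)} : Finset (Fin 3 → k)).card ≤ 2 := Finset.card_le_two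
  have h2 : ((Finset.range (R + 1)).biUnion fun j =>
    ({pa ((p / 2 ^ j : ℕ) : k), pb ((p / 2 ^ j : ℕ) : k), pd ((p / 2 ^ j : ℕ) : k),
      pa (2 * ((p / 2 ^ j : ℕ) : k))} : Finset (Fin 3 → k))).card ≤ (R + 1) * 4 := by
    have := Finset.card_biUnion_le_card_mul (Finset.range (R + 1)) (fun j =>
      ({pa ((p / 2 ^ j : ℕ) : k), pb ((p / 2 ^ j : ℕ) : k), pd ((p / 2 ^ j : ℕ) : k),
      pa (2 * ((p / 2 ^ j : ℕ) : k))} : Finset (Fin 3 → k))) 4 (fun j _ => Finset.card_le_four)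
    rwa [Finset.card_range] at this
  omega

/-- normal form -/
theorem nf_ptsF {x : Fin 3 → k} (hx : x ∈ ptsF k p R) : x = pe ∨ (x 1 = 0 ∧ x 2 = 1) ∨
    (x 1 = 1 ∧ x 2 = 1) ∨ (x 1 = 1 ∧ x 2 = 0) := by
  rcases mem_ptsF.1 hx with h | h | ⟨j, _, h | h | h | h⟩
  · exact Or.inl h
  · subst h; right; right; right; exact ⟨rfl, rfl⟩
  · subst h; right; left; exact ⟨rfl, rfl⟩
  · subst h; right; right; left; exact ⟨rfl, rfl⟩
  · subst h; right; right; right; exact ⟨rfl, rfl⟩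
  · subst h; right; left; exact ⟨rfl, rfl⟩

theorem ne_zero_ptsF {x : Fin 3 → k} (hx : x ∈ ptsF k p R) : x ≠ 0 := by
  rintro rfl
  rcases nf_ptsF hx with h | h | h | h
  · exact zero_ne_one (congrFun h 0)
  · exact zero_ne_one h.2
  · exact zero_ne_one h.2
  · exact zero_ne_one h.1

theorem eq_ptsF {x y : Fin 3 → k} (hx : x ∈ ptsF k p R) (hy : y ∈ ptsF k p R)
    (h : cr x y = 0) : x = y := by
  have c0 : x 1 * y 2 - x 2 * y 1 = 0 := congrFun h 0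
  have c1 : x 2 * y 0 - x 0 * y 2 = 0 := congrFun h 1
  have c2 : x 0 * y 1 - x 1 * y 0 = 0 := congrFun h 2
  rcases nf_ptsF hx with h1 | ⟨h1, h1'⟩ | ⟨h1, h1'⟩ | ⟨h1, h1'⟩ <;>
    rcases nf_ptsF hy with h2 | ⟨h2, h2'⟩ | ⟨h2, h2'⟩ | ⟨h2, h2'⟩
  · rw [h1, h2]
  · rw [h2'] at c1; subst h1; simp [pe] at c1
  · rw [h2'] at c1; subst h1; simp [pe] at c1
  · rw [h2] at c2; subst h1; simp [pe] at c2
  · rw [h1'] at c1; subst h2; simp [pe] at c1
  · rw [h1', h2'] at c1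
    funext i; fin_cases i
    · show x 0 = y 0
      linear_combination -c1
    · exact h1.trans h2.symm
    · exact h1'.trans h2'.symm
  · rw [h1, h1', h2, h2'] at c0
    exact absurd c0 (by simp)
  · rw [h1, h1', h2, h2'] at c0
    exact absurd c0 (by simp)
  · rw [h1'] at c1; subst h2; simp [pe] at c1
  · rw [h1, h1', h2, h2'] at c0
    exact absurd c0 (by simp)
  · rw [h1', h2'] at c1
    funext i; fin_cases i
    · show x 0 = y 0
      linear_combination -c1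
    · exact h1.trans h2.symm
    · exact h1'.trans h2'.symm
  · rw [h1, h1', h2, h2'] at c0
    exact absurd c0 (by simp)
  · rw [h1] at c2; subst h2; simp [pe] at c2
  · rw [h1, h1', h2, h2'] at c0
    exact absurd c0 (by simp)
  · rw [h1, h1', h2, h2'] at c0
    exact absurd c0 (by simp)
  · rw [h1, h2] at c2
    funext i; fin_cases i
    · show x 0 = y 0
      linear_combination c2
    · exact h1.trans h2.symm
    · exact h1'.trans h2'.symm

theorem linF_inr (q : Fin (R + 1) × Fin 4) : linF k p R (Sum.inr q) 0 = 1 := by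
  obtain ⟨j, c⟩ := q
  fin_cases c <;> rfl

theorem ne_zero_linF (t : Fin 3 ⊕ (Fin (R + 1) × Fin 4)) : linF k p R t ≠ 0 := by
  rcases t with c | q
  · fin_cases c
    · exact fun h => one_ne_zero (congrFun h 1)
    · exact fun h => one_ne_zero (congrFun h 1)
    · exact fun h => one_ne_zero (congrFun h 2)
  · intro h
    have := linF_inr (k := k) (p := p) q
    rw [h] at this
    exact zero_ne_one this

theorem cr_linF (t : Fin 3 ⊕ (Fin (R + 1) × Fin 4)) (ht : t ≠ Sum.inl 0) :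
    cr (linF k p R t) (linF k p R (Sum.inl 0)) ≠ 0 := by
  rcases t with c | q
  · fin_cases c
    · exact absurd rfl ht
    · intro h
      have := congrFun h 0
      simp [cr, linF, l0, l1] at this
    · intro h
      have := congrFun h 0
      simp [cr, linF, l0, li] at this
  · intro h
    have h1 := congrFun h 2
    have h2 := linF_inr (k := k) (p := p) q
    rw [cr2, h2] at h1
    simp [linF, l0] at h1

open Classical in
/-- each line of the second kind contains at most three of the points -/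
theorem card_line (q : Fin (R + 1) × Fin 4) :
    (Finset.univ.filter fun x : {x // x ∈ ptsF k p R} =>
      dt (linF k p R (Sum.inr q)) x.1 = 0).card ≤ 3 := by
  have h2 := linF_inr (k := k) (p := p) q
  have h3 : ({((0 : k), (1 : k)), (1, 1), (1, 0)} : Finset (k × k)).card ≤ 3 := Finset.card_le_three
  refine le_trans (Finset.card_le_card_of_injOn (fun x => (x.1 1, x.1 2)) ?_ ?_) h3
  · intro x hx
    have hx' : dt (linF k p R (Sum.inr q)) x.1 = 0 := (Finset.mem_filter.1 hx).2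
    rcases nf_ptsF x.2 with h | ⟨h, h'⟩ | ⟨h, h'⟩ | ⟨h, h'⟩
    · rw [h, dt_def, h2] at hx'
      simp [pe] at hx'
    · simp [h, h']
    · simp [h, h']
    · simp [h, h']
  · intro x hx y hy hxy
    have hx' : dt (linF k p R (Sum.inr q)) x.1 = 0 := (Finset.mem_filter.1 hx).2
    have hy' : dt (linF k p R (Sum.inr q)) y.1 = 0 := (Finset.mem_filter.1 hy).2
    have e1 : x.1 1 = y.1 1 := (Prod.ext_iff.1 hxy).1
    have e2 : x.1 2 = y.1 2 := (Prod.ext_iff.1 hxy).2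
    rw [dt_def, h2, e1, e2] at hx'
    rw [dt_def, h2] at hy'
    apply Subtype.ext
    funext i; fin_cases i
    · show x.1 0 = y.1 0
      linear_combination hx' - hy'
    · exact e1
    · exact e2

theorem linF_inl (x : Fin 3 → k) : (dt (linF k p R (Sum.inl 0)) x = x 1) ∧
    (dt (linF k p R (Sum.inl 1)) x = x 1 - x 2) ∧ (dt (linF k p R (Sum.inl 2)) x = x 2) := by
  refine ⟨?_, ?_, ?_⟩
  · simp [dt_def, linF, l0]
  · simp [dt_def, linF, l1]; ring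
  · simp [dt_def, linF, li]

theorem sum_fin3 (f : Fin 3 → ℕ) : ∑ c, f c = f 0 + f 1 + f 2 := Fin.sum_univ_three f

open Classical in
/-- the number of the incidences -/
theorem card_inc_le :
    (Finset.univ.filter fun q : (Fin 3 ⊕ (Fin (R + 1) × Fin 4)) × {x // x ∈ ptsF k p R} =>
      dt (linF k p R q.1) q.2.1 = 0).card ≤ 16 * R + 20 := by
  have hc : Fintype.card {x // x ∈ ptsF k p R} ≤ 4 * R + 6 := by
    rw [Fintype.card_coe]
    exact card_ptsF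
  rw [Finset.card_filter, Fintype.sum_prod_type, Fintype.sum_sum_type]
  dsimp only
  have h1 : ∑ x : Fin (R + 1) × Fin 4, ∑ y : {x // x ∈ ptsF k p R},
      (if dt (linF k p R (Sum.inr x)) y.1 = 0 then 1 else 0) ≤ (R + 1) * 4 * 3 := by
    have : ∀ x : Fin (R + 1) × Fin 4, ∑ y : {x // x ∈ ptsF k p R},
        (if dt (linF k p R (Sum.inr x)) y.1 = 0 then 1 else 0) ≤ 3 := by
      intro x
      rw [← Finset.card_filter]
      exact card_line x
    refine (Finset.sum_le_card_nsmul _ _ 3 fun x _ => this x).trans ?_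
    rw [Finset.card_univ, Fintype.card_prod, Fintype.card_fin, Fintype.card_fin, smul_eq_mul]
  have h2 : ∑ x : Fin 3, ∑ y : {x // x ∈ ptsF k p R},
      (if dt (linF k p R (Sum.inl x)) y.1 = 0 then 1 else 0) ≤ 4 * R + 6 + 2 := by
    rw [Finset.sum_comm]
    have : ∀ y : {x // x ∈ ptsF k p R}, ∑ x : Fin 3,
        (if dt (linF k p R (Sum.inl x)) y.1 = 0 then 1 else 0) ≤
        1 + (if y.1 = pe then 2 else 0) := by
      intro y
      rw [sum_fin3]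
      obtain ⟨e0, e1, e2⟩ := linF_inl (p := p) (R := R) y.1
      rw [e0, e1, e2]
      rcases nf_ptsF y.2 with h | ⟨h, h'⟩ | ⟨h, h'⟩ | ⟨h, h'⟩
      · rw [if_pos h]
        split_ifs <;> omega
      · rw [h, h']; simp
      · rw [h, h']; simp
      · rw [h, h']; simp
    refine (Finset.sum_le_sum fun y _ => this y).trans ?_
    rw [Finset.sum_add_distrib, Finset.sum_const, Finset.card_univ, smul_eq_mul, mul_one]
    have h3 : ∑ y : {x // x ∈ ptsF k p R}, (if y.1 = pe then 2 else 0) ≤ 2 := by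
      rw [← Finset.sum_filter, Finset.sum_const, smul_eq_mul]
      have : (Finset.univ.filter fun y : {x // x ∈ ptsF k p R} => y.1 = pe).card ≤ 1 := by
        rw [Finset.card_le_one]
        intro a ha b hb
        exact Subtype.ext ((Finset.mem_filter.1 ha).2.trans (Finset.mem_filter.1 hb).2.symm)
      omega
    omega
  omega

open Classical in
theorem le_card_inc :
    Fintype.card {x // x ∈ ptsF k p R} ≤
    (Finset.univ.filter fun q : (Fin 3 ⊕ (Fin (R + 1) × Fin 4)) × {x // x ∈ ptsF k p R} =>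
      dt (linF k p R q.1) q.2.1 = 0).card := by
  have h : ∀ x : {x // x ∈ ptsF k p R}, ∃ c : Fin 3, dt (linF k p R (Sum.inl c)) x.1 = 0 := by
    intro x
    obtain ⟨e0, e1, e2⟩ := linF_inl (p := p) (R := R) x.1
    rcases nf_ptsF x.2 with h | ⟨h, h'⟩ | ⟨h, h'⟩ | ⟨h, h'⟩
    · exact ⟨0, by rw [e0, h]; rfl⟩
    · exact ⟨0, by rw [e0, h]⟩
    · exact ⟨1, by rw [e1, h, h', sub_self]⟩
    · exact ⟨2, by rw [e2, h']⟩
  choose f hf using h
  rw [← Finset.card_univ]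
  refine Finset.card_le_card_of_injOn (fun x => (Sum.inl (f x), x)) ?_ ?_
  · intro x _
    simp only [Finset.coe_filter, Finset.mem_univ, true_and, Set.mem_ofPred_eq]
    exact hf x
  · intro x _ y _ h
    exact (Prod.ext_iff.1 h).2

end

/-- rigidity -/
theorem rigid_base {k : Type} [Field k] {p R : ℕ} (hp : p ≠ 0) (hR : p < 2 ^ (R + 1))
    (hpk : (p : k) = 0) :
    Rigid p (P := {x // x ∈ ptsF k p R}) (fun x => x.1) (linF k p R) := by
  classical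
  intro F _ v hv
  have hx0 : (((p / 2 ^ 0 : ℕ)) : k) = 0 := by rw [pow_zero, Nat.div_one, hpk]
  have mem : ∀ j ≤ R, pa (((p / 2 ^ j : ℕ)) : k) ∈ ptsF k p R ∧
      pb (((p / 2 ^ j : ℕ)) : k) ∈ ptsF k p R ∧
      pd (((p / 2 ^ j : ℕ)) : k) ∈ ptsF k p R ∧ pa (2 * (((p / 2 ^ j : ℕ)) : k)) ∈ ptsF k p R := by
    intro j hj
    refine ⟨mem_ptsF.2 ?_, mem_ptsF.2 ?_, mem_ptsF.2 ?_, mem_ptsF.2 ?_⟩
    · exact Or.inr (Or.inr ⟨j, hj, Or.inl rfl⟩)
    · exact Or.inr (Or.inr ⟨j, hj, Or.inr (Or.inl rfl)⟩)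
    · exact Or.inr (Or.inr ⟨j, hj, Or.inr (Or.inr (Or.inl rfl))⟩)
    · exact Or.inr (Or.inr ⟨j, hj, Or.inr (Or.inr (Or.inr rfl))⟩)
  have m0 := mem 0 (Nat.zero_le _)
  rw [hx0] at m0
  obtain ⟨ma, mb, mv, _⟩ := m0
  have me : pe ∈ ptsF k p R := mem_ptsF.2 (Or.inl rfl)
  have mu : pd (-1) ∈ ptsF k p R := mem_ptsF.2 (Or.inr (Or.inl rfl))
  obtain ⟨ω, hω, o1, o2, o3⟩ := exists_real (P := {x // x ∈ ptsF k p R}) (fun x => x.1)
    (linF k p R) v hv.col hv.non ⟨pe, me⟩ ⟨pd 0, mv⟩ ⟨pa 0, ma⟩ (by simp [d3_def, pe, pd, pa])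
  -- nonvanishing
  have nu0 : ω ⟨pd (-1), mu⟩ 0 ≠ 0 := by
    have := hω.non ⟨pd (-1), mu⟩ ⟨pd 0, mv⟩ ⟨pa 0, ma⟩ (by simp [d3_def, pd, pa])
    rw [o2, o3] at this
    intro h
    apply this
    simp [d3_def, h]
  have nu1 : ω ⟨pd (-1), mu⟩ 1 ≠ 0 := by
    have := hω.non ⟨pe, me⟩ ⟨pd (-1), mu⟩ ⟨pa 0, ma⟩ (by simp [d3_def, pe, pd, pa])
    rw [o1, o3] at this
    intro h
    apply this
    simp [d3_def, h]
  have nb1 : ω ⟨pb 0, mb⟩ 1 ≠ 0 := by
    have := hω.non ⟨pe, me⟩ ⟨pb 0, mb⟩ ⟨pa 0, ma⟩ (by simp [d3_def, pe, pb, pa])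
    rw [o1, o3] at this
    intro h
    apply this
    simp [d3_def, h]
  have nb2 : ω ⟨pb 0, mb⟩ 2 ≠ 0 := by
    have := hω.non ⟨pe, me⟩ ⟨pd 0, mv⟩ ⟨pb 0, mb⟩ (by simp [d3_def, pe, pb, pd])
    rw [o1, o2] at this
    intro h
    apply this
    simp [d3_def, h]
  obtain ⟨a0, ha0⟩ : ∃ a0, a0 = ω ⟨pd (-1), mu⟩ 1 * ω ⟨pb 0, mb⟩ 2 := ⟨_, rfl⟩
  obtain ⟨a1, ha1⟩ : ∃ a1, a1 = ω ⟨pd (-1), mu⟩ 0 * ω ⟨pb 0, mb⟩ 2 := ⟨_, rfl⟩
  obtain ⟨a2, ha2⟩ : ∃ a2, a2 = ω ⟨pd (-1), mu⟩ 0 * ω ⟨pb 0, mb⟩ 1 := ⟨_, rfl⟩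
  have n0 : a0 ≠ 0 := by rw [ha0]; exact mul_ne_zero nu1 nb2
  have n1 : a1 ≠ 0 := by rw [ha1]; exact mul_ne_zero nu0 nb2
  have n2 : a2 ≠ 0 := by rw [ha2]; exact mul_ne_zero nu0 nb1
  let Ω : (Fin 3 → k) → Fin 3 → F := fun x =>
    if h : x ∈ ptsF k p R then ![a0 * ω ⟨x, h⟩ 0, a1 * ω ⟨x, h⟩ 1, a2 * ω ⟨x, h⟩ 2] else 0
  have hΩ : ∀ (x : Fin 3 → k) (h : x ∈ ptsF k p R),
      Ω x = ![a0 * ω ⟨x, h⟩ 0, a1 * ω ⟨x, h⟩ 1, a2 * ω ⟨x, h⟩ 2] := fun x h => dif_pos h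
  have hd3 : ∀ (x y z : Fin 3 → k) (hx : x ∈ ptsF k p R) (hy : y ∈ ptsF k p R)
      (hz : z ∈ ptsF k p R), d3 (Ω x) (Ω y) (Ω z) =
        a0 * a1 * a2 * d3 (ω ⟨x, hx⟩) (ω ⟨y, hy⟩) (ω ⟨z, hz⟩) := by
    intro x y z hx hy hz
    rw [hΩ x hx, hΩ y hy, hΩ z hz, d3_def, d3_def]
    simp only [Matrix.cons_val_zero, Matrix.cons_val_one, Matrix.cons_val]
    ring
  have hRS : RS (↑(ptsF k p R) : Set (Fin 3 → k)) (Set.range (linF k p R)) Ω := by
    refine ⟨?_, ?_⟩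
    · rintro _ ⟨t, rfl⟩ a ha b hb c hc h1 h2 h3
      rw [hd3 a b c ha hb hc, hω.col t ⟨a, ha⟩ ⟨b, hb⟩ ⟨c, hc⟩ h1 h2 h3, mul_zero]
    · intro a ha b hb c hc h
      rw [hd3 a b c ha hb hc]
      exact mul_ne_zero (mul_ne_zero (mul_ne_zero n0 n1) n2)
        (hω.non ⟨a, ha⟩ ⟨b, hb⟩ ⟨c, hc⟩ h)
  have hFr : Fr (↑(ptsF k p R) : Set (Fin 3 → k)) (Set.range (linF k p R)) Ω := by
    refine { hRS with
      eS := me, vS := mv, uS := mu, aS := ma, bS := mb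
      l0S := ⟨Sum.inl 0, rfl⟩, l1S := ⟨Sum.inl 1, rfl⟩, liS := ⟨Sum.inl 2, rfl⟩
      e1 := ?_, e2 := ?_, v0 := ?_, v2 := ?_, a0 := ?_, a1 := ?_, u01 := ?_, b12 := ?_ }
    · rw [hΩ _ me, o1]; simp
    · rw [hΩ _ me, o1]; simp
    · rw [hΩ _ mv, o2]; simp
    · rw [hΩ _ mv, o2]; simp
    · rw [hΩ _ ma, o3]; simp
    · rw [hΩ _ ma, o3]; simp
    · rw [hΩ _ mu]
      simp only [Matrix.cons_val_zero, Matrix.cons_val_one]
      rw [ha0, ha1]; ring
    · rw [hΩ _ mb]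
      simp only [Matrix.cons_val_zero, Matrix.cons_val_one, Matrix.cons_val]
      rw [ha1, ha2]; ring
  refine hFr.chain p R hp hR hpk mem ?_
  intro j hj
  exact ⟨⟨Sum.inr (⟨j, by omega⟩, 0), rfl⟩, ⟨Sum.inr (⟨j, by omega⟩, 1), rfl⟩,
    ⟨Sum.inr (⟨j, by omega⟩, 2), rfl⟩, ⟨Sum.inr (⟨j, by omega⟩, 3), rfl⟩⟩

/-- the configurations of all sizes -/
theorem hasConf {k : Type} [Field k] [Infinite k] {p R : ℕ} (hp : p ≠ 0)
    (hR : p < 2 ^ (R + 1)) (hpk : (p : k) = 0) {n s : ℕ} (hs : 16 * R + 20 ≤ s) (hn : s ≤ n) :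
    HasConf k p n (4 * R + 7) s := by
  classical
  have h0 : HasConf k p (Fintype.card {x // x ∈ ptsF k p R}) (4 * R + 7)
      (Finset.univ.filter fun q : (Fin 3 ⊕ (Fin (R + 1) × Fin 4)) × {x // x ∈ ptsF k p R} =>
        dt (linF k p R q.1) q.2.1 = 0).card := by
    refine ⟨{x // x ∈ ptsF k p R}, Fin 3 ⊕ (Fin (R + 1) × Fin 4), inferInstance, inferInstance,
      fun x => x.1, linF k p R, rfl, ?_, ?_, fun i => ne_zero_ptsF i.2, ?_, ne_zero_linF,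
      ⟨Sum.inl 0, cr_linF⟩, rigid_base hp hR hpk⟩
    · rw [Fintype.card_sum, Fintype.card_prod, Fintype.card_fin, Fintype.card_fin,
        Fintype.card_fin]
      ring
    · rfl
    · intro i j hij h
      exact hij (Subtype.ext (eq_ptsF i.2 j.2 h))
  have h1 := card_inc_le (k := k) (p := p) (R := R)
  exact h0.reach (h1.trans hs) (by
    have := le_card_inc (k := k) (p := p) (R := R)
    omega)

end Pool.Agent.KS6_28.HC
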