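import Pool.Agent.KS6_28.HC.Mat

/-!
# Good space configurations given by plane configurations
-/

set_option autoImplicit false

open Matrix
open Pool.Agent.Helper947.Crv

namespace Pool.Agent.KS6_28.HC

theorem det4_eq {R : Type*} [CommRing R] (r0 r1 r2 r3 : Fin 4 → R) :
    Matrix.det ![r0, r1, r2, r3] =
      (r0 0 * r1 1 - r0 1 * r1 0) * (r2 2 * r3 3 - r2 3 * r3 2) -
      (r0 0 * r1 2 - r0 2 * r1 0) * (r2 1 * r3 3 - r2 3 * r3 1) +
      (r0 0 * r1 3 - r0 3 * r1 0) * (r2 1 * r3 2 - r2 2 * r3 1) +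
      (r0 1 * r1 2 - r0 2 * r1 1) * (r2 0 * r3 3 - r2 3 * r3 0) -
      (r0 1 * r1 3 - r0 3 * r1 1) * (r2 0 * r3 2 - r2 2 * r3 0) +
      (r0 2 * r1 3 - r0 3 * r1 2) * (r2 0 * r3 1 - r2 1 * r3 0) := by
  rw [Matrix.det_succ_row_zero]
  simp [Matrix.det_fin_three, Fin.sum_univ_succ, Fin.succAbove, Matrix.submatrix]
  ring

section

variable {k : Type*} [CommRing k]

theorem bv0 (A B : Matrix (Fin 2) (Fin 2) k) : bv A B 0 = B 0 0 - A 0 0 := rfl
theorem bv1 (A B : Matrix (Fin 2) (Fin 2) k) : bv A B 1 = B 0 1 - A 0 1 := rfl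
theorem bv2 (A B : Matrix (Fin 2) (Fin 2) k) : bv A B 2 = B 1 0 - A 1 0 := rfl
theorem bv3 (A B : Matrix (Fin 2) (Fin 2) k) : bv A B 3 = B 1 1 - A 1 1 := rfl

end

variable {k : Type*} [Field k]

theorem det_bv_ch (r s : k) (A B0 B1 B2 B3 : Matrix (Fin 2) (Fin 2) k) :
    Matrix.det ![bv (ch r s A) (ch r s B0), bv (ch r s A) (ch r s B1), bv (ch r s A) (ch r s B2),
      bv (ch r s A) (ch r s B3)] = Matrix.det ![bv A B0, bv A B1, bv A B2, bv A B3] := by
  rw [det4_eq, det4_eq]
  simp only [bv0, bv1, bv2, bv3, ch00, ch01, ch10, ch11]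
  ring

theorem det_bv {P L : Type} {α β γ μ : L → k} {X Y : P → k} (hs : ∀ i, 1 + X i * Y i ≠ 0)
    (a b c : P) :
    Matrix.det ![bv (matA α β γ μ none) (matB X Y none),
      bv (matA α β γ μ none) (matB X Y (some a)), bv (matA α β γ μ none) (matB X Y (some b)),
      bv (matA α β γ μ none) (matB X Y (some c))] =
      d3 ![1, X a, Y a] ![1, X b, Y b] ![1, X c, Y c] /
        ((1 + X a * Y a) * (1 + X b * Y b) * (1 + X c * Y c)) := by
  have ha := hs a
  have hb := hs b
  have hc := hs c
  rw [det4_eq, d3_def]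
  simp only [bv0, bv1, bv2, bv3, matA, matB, Matrix.of_apply, Matrix.cons_val',
      Matrix.cons_val_zero, Matrix.cons_val_one, Matrix.cons_val_fin_one, Matrix.cons_val]
  field_simp
  ring

/-- the space configuration of a plane configuration -/
theorem exists_conf [Infinite k] {P L : Type} [Finite P] [Finite L] (w : P → Fin 3 → k)
    (l : L → Fin 3 → k) (hw0 : ∀ i, w i ≠ 0) (hw : ∀ i j, i ≠ j → cr (w i) (w j) ≠ 0)
    (hl : ∀ t, l t ≠ 0) :
    ∃ (A : Option (Option L) → Matrix (Fin 2) (Fin 2) k)
      (B : Option P → Matrix (Fin 2) (Fin 2) k),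
      (∀ j j', j ≠ j' → (A j - A j').det ≠ 0) ∧ (∀ i i', i ≠ i' → (B i - B i').det ≠ 0) ∧
      (∀ j i, (A j - B i).det = 0 ↔ inc (fun t i => dt (l t) (w i) = 0) j i) ∧
      (∀ j i, (A j - B i) 0 0 ≠ 0) ∧
      (∀ a b c, d3 (w a) (w b) (w c) ≠ 0 →
        Matrix.det ![bv (A none) (B none), bv (A none) (B (some a)), bv (A none) (B (some b)),
          bv (A none) (B (some c))] ≠ 0) := by
  obtain ⟨X, Y, α, β, γ, hX, hY, hs, hα, hβ, hI, hD⟩ := exists_coords w l hw0 hw hl
  obtain ⟨μ, hμ, hδ, hd⟩ := exists_mu α β γ hα hβ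
  obtain ⟨r, s, hrs⟩ := exists_rs (k := k) (ι := Option (Option L) × Option P)
    (fun q => matA α β γ μ q.1 - matB X Y q.2)
    (fun q => sub_ne_zero.2 (A_ne_B hα hβ hμ hδ hd hs q.1 q.2))
  refine ⟨fun j => ch r s (matA α β γ μ j), fun i => ch r s (matB X Y i), ?_, ?_, ?_, ?_, ?_⟩
  · intro j j' h
    rw [ch_sub, ch_det]
    exact det_A_sub hα hβ hμ hδ hd j j' h
  · intro i i' h
    rw [ch_sub, ch_det]
    exact det_B_sub hX hY hs i i' h
  · intro j i
    rw [ch_sub, ch_det, det_AB hμ hδ hs]
    rcases j with _ | _ | t <;> rcases i with _ | i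
    · exact Iff.rfl
    · exact Iff.rfl
    · exact Iff.rfl
    · exact Iff.rfl
    · exact Iff.rfl
    · exact (hI t i).symm
  · intro j i
    rw [ch_sub]
    exact hrs (j, i)
  · intro a b c h
    rw [det_bv_ch, det_bv hs]
    exact div_ne_zero (hD a b c h) (mul_ne_zero (mul_ne_zero (hs a) (hs b)) (hs c))

open Classical in
/-- the number of the meeting pairs -/
theorem card_inc {P L : Type} [Fintype P] [Fintype L] (I : L → P → Prop) :
    (Finset.univ.filter fun q : Option (Option L) × Option P => inc I q.1 q.2).card =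
      2 * (Fintype.card P + 1) + Fintype.card L +
        (Finset.univ.filter fun q : L × P => I q.1 q.2).card := by
  have h1 : ∀ (S T : Type) [Fintype S] [Fintype T] (R : S → T → Prop),
      (Finset.univ.filter fun q : S × T => R q.1 q.2).card =
        ∑ x : S, (Finset.univ.filter fun y : T => R x y).card := by
    intro S T _ _ R
    rw [Finset.card_filter, Fintype.sum_prod_type]
    refine Finset.sum_congr rfl fun x _ => ?_
    rw [Finset.card_filter]
  have h2 : ∀ (T : Type) [Fintype T] (R : Option T → Prop),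
      (Finset.univ.filter fun y : Option T => R y).card =
        (if R none then 1 else 0) + (Finset.univ.filter fun y : T => R (some y)).card := by
    intro T _ R
    rw [Finset.card_filter, Fintype.sum_option, Finset.card_filter]
  rw [h1, h1, Fintype.sum_option, Fintype.sum_option]
  have e1 : (Finset.univ.filter fun y : Option P => inc I (none : Option (Option L)) y).card =
      Fintype.card P + 1 := by
    rw [Finset.filter_true_of_mem (p := fun y : Option P => inc I (none : Option (Option L)) y)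
      (fun y _ => trivial), Finset.card_univ, Fintype.card_option]
  have e2 : (Finset.univ.filter fun y : Option P => inc I (some (none : Option L)) y).card =
      Fintype.card P + 1 := by
    rw [Finset.filter_true_of_mem (p := fun y : Option P => inc I (some (none : Option L)) y)
      (fun y _ => trivial), Finset.card_univ, Fintype.card_option]
  have e3 : ∀ t : L, (Finset.univ.filter fun y : Option P => inc I (some (some t)) y).card =
      1 + (Finset.univ.filter fun y : P => I t y).card := by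
    intro t
    rw [h2]
    rw [if_pos (show inc I (some (some t)) none from trivial)]
    rfl
  rw [e1, e2]
  simp only [e3, Finset.sum_add_distrib]
  rw [Finset.sum_const, Finset.card_univ, smul_eq_mul, mul_one]
  ring

end Pool.Agent.KS6_28.HC
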