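import Mathlib

/-!
# Configurations of points and lines in the plane: generic coordinates
-/

set_option autoImplicit false

namespace Pool.Agent.KS6_28.HC

section defs

variable {k : Type*} [CommRing k]

/-- the standard bilinear form in three variables -/
def dt (a b : Fin 3 → k) : k := a 0 * b 0 + a 1 * b 1 + a 2 * b 2

/-- the cross product -/
def cr (a b : Fin 3 → k) : Fin 3 → k :=
  ![a 1 * b 2 - a 2 * b 1, a 2 * b 0 - a 0 * b 2, a 0 * b 1 - a 1 * b 0]

/-- the determinant -/
def d3 (a b c : Fin 3 → k) : k := dt a (cr b c)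

theorem dt_def (a b : Fin 3 → k) : dt a b = a 0 * b 0 + a 1 * b 1 + a 2 * b 2 := rfl

theorem cr0 (a b : Fin 3 → k) : cr a b 0 = a 1 * b 2 - a 2 * b 1 := rfl
theorem cr1 (a b : Fin 3 → k) : cr a b 1 = a 2 * b 0 - a 0 * b 2 := rfl
theorem cr2 (a b : Fin 3 → k) : cr a b 2 = a 0 * b 1 - a 1 * b 0 := rfl

theorem d3_def (a b c : Fin 3 → k) : d3 a b c =
    a 0 * (b 1 * c 2 - b 2 * c 1) + a 1 * (b 2 * c 0 - b 0 * c 2) +
      a 2 * (b 0 * c 1 - b 1 * c 0) := rfl

/-- the vectors orthogonal to `c` -/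
def dtK (c : Fin 3 → k) : Submodule k (Fin 3 → k) where
  carrier := {x | dt x c = 0}
  add_mem' := fun {a b} ha hb => by
    have h1 : dt a c = 0 := ha
    have h2 : dt b c = 0 := hb
    show dt (a + b) c = 0
    simp only [dt_def, Pi.add_apply] at *
    linear_combination h1 + h2
  zero_mem' := by
    show dt 0 c = 0
    simp [dt_def]
  smul_mem' := fun r x hx => by
    have h1 : dt x c = 0 := hx
    show dt (r • x) c = 0
    simp only [dt_def, Pi.smul_apply, smul_eq_mul] at *
    linear_combination r * h1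

theorem mem_dtK {c x : Fin 3 → k} : x ∈ dtK c ↔ dt x c = 0 := Iff.rfl

/-- the vectors parallel to `c` -/
def crK (c : Fin 3 → k) : Submodule k (Fin 3 → k) where
  carrier := {x | cr x c = 0}
  add_mem' := fun {a b} ha hb => by
    have h1 : cr a c = 0 := ha
    have h2 : cr b c = 0 := hb
    show cr (a + b) c = 0
    have e : cr (a + b) c = cr a c + cr b c := by
      funext i; fin_cases i <;> simp [cr] <;> ring
    rw [e, h1, h2, add_zero]
  zero_mem' := by
    show cr 0 c = 0
    funext i; fin_cases i <;> simp [cr]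
  smul_mem' := fun r x hx => by
    have h1 : cr x c = 0 := hx
    show cr (r • x) c = 0
    have e : cr (r • x) c = r • cr x c := by
      funext i; fin_cases i <;> simp [cr] <;> ring
    rw [e, h1, smul_zero]

theorem mem_crK {c x : Fin 3 → k} : x ∈ crK c ↔ cr x c = 0 := Iff.rfl

theorem cr_anti (a b : Fin 3 → k) : cr a b = - cr b a := by
  funext i; fin_cases i <;> simp [cr] <;> ring

end defs

section field

variable {k : Type*} [Field k]

theorem exists_notMem_dtK {c : Fin 3 → k} (hc : c ≠ 0) : ∃ x, x ∉ dtK c := by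
  by_contra! h
  apply hc
  funext i
  have h1 : dt (Pi.single i 1) c = 0 := h _
  fin_cases i <;> simpa [dt_def, Pi.single_apply] using h1

theorem exists_notMem_crK {c : Fin 3 → k} (hc : c ≠ 0) : ∃ x, x ∉ crK c := by
  by_contra! h
  apply hc
  have h0 : cr (Pi.single 0 1) c = 0 := h _
  have h1 : cr (Pi.single 1 1) c = 0 := h _
  have a1 := congrFun h0 1
  have a2 := congrFun h0 2
  have a3 := congrFun h1 2
  simp [cr] at a1 a2 a3
  funext i
  fin_cases i
  · exact a3
  · exact a2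
  · exact a1

theorem avoid [Infinite k] {V : Type*} [AddCommGroup V] [Module k V] {ι : Type*} [Finite ι]
    (W : ι → Submodule k V) (h : ∀ i, ∃ x, x ∉ W i) : ∃ x, ∀ i, x ∉ W i := by
  refine Submodule.exists_forall_notMem_of_forall_ne_top W fun i hi => ?_
  obtain ⟨x, hx⟩ := h i
  rw [hi] at hx
  exact hx trivial

theorem exists_scalar [Infinite k] {ι : Type*} [Finite ι] (q : ι → Polynomial k)
    (hq : ∀ i, q i ≠ 0) : ∃ x : k, ∀ i, (q i).eval x ≠ 0 := by
  have h : (⋃ i, {x | (q i).IsRoot x}).Finite :=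
    Set.finite_iUnion fun i => Polynomial.finite_setOfPred_isRoot (hq i)
  obtain ⟨x, hx⟩ := h.infinite_compl.nonempty
  refine ⟨x, fun i hi => hx ?_⟩
  exact Set.mem_iUnion.2 ⟨i, hi⟩

/-- generic coordinates for a finite set of points and a finite set of lines -/
theorem exists_coords [Infinite k] {P L : Type} [Finite P] [Finite L] (w : P → Fin 3 → k)
    (l : L → Fin 3 → k) (hw0 : ∀ i, w i ≠ 0) (hw : ∀ i j, i ≠ j → cr (w i) (w j) ≠ 0)
    (hl : ∀ t, l t ≠ 0) :
    ∃ (X Y : P → k) (α β γ : L → k), (∀ i j, i ≠ j → X i ≠ X j) ∧ (∀ i j, i ≠ j → Y i ≠ Y j) ∧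
      (∀ i, 1 + X i * Y i ≠ 0) ∧ (∀ t, α t ≠ 0) ∧ (∀ t, β t ≠ 0) ∧
      (∀ t i, dt (l t) (w i) = 0 ↔ α t * X i + β t * Y i + γ t = 0) ∧
      (∀ a b c, d3 (w a) (w b) (w c) ≠ 0 →
        d3 ![1, X a, Y a] ![1, X b, Y b] ![1, X c, Y c] ≠ 0) := by
  -- the form `f0`
  obtain ⟨f0, hf0⟩ := avoid (k := k) (V := Fin 3 → k) (ι := P ⊕ {q : P × P // q.1 ≠ q.2} ⊕ L)
    (fun s => match s with
      | Sum.inl i => dtK (w i)
      | Sum.inr (Sum.inl q) => crK (cr (w q.1.1) (w q.1.2))
      | Sum.inr (Sum.inr t) => crK (l t)) (by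
      rintro (i | ⟨q, hq⟩ | t)
      · exact exists_notMem_dtK (hw0 i)
      · exact exists_notMem_crK (hw _ _ hq)
      · exact exists_notMem_crK (hl t))
  have a1 : ∀ i, dt f0 (w i) ≠ 0 := fun i => hf0 (Sum.inl i)
  have a2 : ∀ i j, i ≠ j → cr f0 (cr (w i) (w j)) ≠ 0 := fun i j h =>
    hf0 (Sum.inr (Sum.inl ⟨(i, j), h⟩))
  have a3 : ∀ t, cr f0 (l t) ≠ 0 := fun t => hf0 (Sum.inr (Sum.inr t))
  -- replace `f0` if it is zero
  obtain ⟨f0, a1, a2, a3, a0⟩ : ∃ f0 : Fin 3 → k, (∀ i, dt f0 (w i) ≠ 0) ∧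
      (∀ i j, i ≠ j → cr f0 (cr (w i) (w j)) ≠ 0) ∧ (∀ t, cr f0 (l t) ≠ 0) ∧ f0 ≠ 0 := by
    by_cases h0 : f0 = 0
    · refine ⟨fun _ => 1, fun i => ?_, fun i j h => ?_, fun t => ?_, fun h => ?_⟩
      · exact absurd (by rw [h0]; simp [dt_def]) (a1 i)
      · exact absurd (by rw [h0]; funext s; fin_cases s <;> simp [cr]) (a2 i j h)
      · exact absurd (by rw [h0]; funext s; fin_cases s <;> simp [cr]) (a3 t)
      · exact one_ne_zero (congrFun h 0)
    · exact ⟨f0, a1, a2, a3, h0⟩
  -- the form `f1`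
  obtain ⟨f1, hf1⟩ := avoid (k := k) (V := Fin 3 → k) (ι := {q : P × P // q.1 ≠ q.2} ⊕ L ⊕ Unit)
    (fun s => match s with
      | Sum.inl q => dtK (cr f0 (cr (w q.1.1) (w q.1.2)))
      | Sum.inr (Sum.inl t) => dtK (cr f0 (l t))
      | Sum.inr (Sum.inr _) => crK f0) (by
      rintro (⟨q, hq⟩ | t | _)
      · exact exists_notMem_dtK (a2 _ _ hq)
      · exact exists_notMem_dtK (a3 t)
      · exact exists_notMem_crK a0)
  have b1 : ∀ i j, i ≠ j → dt f1 (cr f0 (cr (w i) (w j))) ≠ 0 := fun i j h =>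
    hf1 (Sum.inl ⟨(i, j), h⟩)
  have b2 : ∀ t, dt f1 (cr f0 (l t)) ≠ 0 := fun t => hf1 (Sum.inr (Sum.inl t))
  have b3 : cr f1 f0 ≠ 0 := hf1 (Sum.inr (Sum.inr ()))
  -- the form `f2`
  obtain ⟨f2, hf2⟩ := avoid (k := k) (V := Fin 3 → k) (ι := {q : P × P // q.1 ≠ q.2} ⊕ L ⊕ Unit)
    (fun s => match s with
      | Sum.inl q => dtK (cr f0 (cr (w q.1.1) (w q.1.2)))
      | Sum.inr (Sum.inl t) => dtK (cr f0 (l t))
      | Sum.inr (Sum.inr _) => dtK (cr f1 f0)) (by
      rintro (⟨q, hq⟩ | t | _)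
      · exact exists_notMem_dtK (a2 _ _ hq)
      · exact exists_notMem_dtK (a3 t)
      · exact exists_notMem_dtK b3)
  have c1 : ∀ i j, i ≠ j → dt f2 (cr f0 (cr (w i) (w j))) ≠ 0 := fun i j h =>
    hf2 (Sum.inl ⟨(i, j), h⟩)
  have c2 : ∀ t, dt f2 (cr f0 (l t)) ≠ 0 := fun t => hf2 (Sum.inr (Sum.inl t))
  have c3 : dt f2 (cr f1 f0) ≠ 0 := hf2 (Sum.inr (Sum.inr ()))
  -- the scalar
  obtain ⟨s, hs⟩ := exists_scalar (k := k) (ι := Option P) (fun o => match o with
    | none => Polynomial.X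
    | some i => Polynomial.C (dt f0 (w i) ^ 2) +
        Polynomial.C (dt f1 (w i) * dt f2 (w i)) * Polynomial.X) (by
      rintro (_ | i)
      · exact Polynomial.X_ne_zero
      · intro h
        have h1 := congrArg (Polynomial.eval 0) h
        simp at h1
        exact a1 i h1)
  have s0 : s ≠ 0 := by simpa using hs none
  have s1 : ∀ i, dt f0 (w i) ^ 2 + dt f1 (w i) * dt f2 (w i) * s ≠ 0 := fun i => by
    simpa using hs (some i)
  refine ⟨fun i => dt f1 (w i) / dt f0 (w i), fun i => s * dt f2 (w i) / dt f0 (w i),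
    fun t => s * dt (l t) (cr f2 f0), fun t => dt (l t) (cr f0 f1),
    fun t => s * dt (l t) (cr f1 f2), ?_, ?_, ?_, ?_, ?_, ?_, ?_⟩
  · intro i j hij h
    apply b1 i j hij
    have h1 := a1 i
    have h2 := a1 j
    rw [div_eq_div_iff h1 h2] at h
    simp only [dt_def, cr0, cr1, cr2] at h ⊢
    linear_combination h
  · intro i j hij h
    apply c1 i j hij
    have h1 := a1 i
    have h2 := a1 j
    rw [div_eq_div_iff h1 h2, mul_assoc, mul_assoc] at h
    have h := mul_left_cancel₀ s0 h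
    simp only [dt_def, cr0, cr1, cr2] at h ⊢
    linear_combination h
  · intro i h
    apply s1 i
    have h1 := a1 i
    field_simp at h
    linear_combination h
  · intro t
    refine mul_ne_zero s0 fun h => c2 t ?_
    simp only [dt_def, cr0, cr1, cr2] at h ⊢
    linear_combination h
  · intro t h
    apply b2 t
    simp only [dt_def, cr0, cr1, cr2] at h ⊢
    linear_combination -h
  · intro t i
    have h1 := a1 i
    have e : (s * dt (l t) (cr f2 f0)) * (dt f1 (w i) / dt f0 (w i)) +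
        dt (l t) (cr f0 f1) * (s * dt f2 (w i) / dt f0 (w i)) + s * dt (l t) (cr f1 f2) =
        - s * dt f2 (cr f1 f0) * dt (l t) (w i) / dt f0 (w i) := by
      field_simp
      simp only [dt_def, cr0, cr1, cr2]
      ring
    rw [e]
    constructor
    · intro h
      rw [h, mul_zero, zero_div]
    · intro h
      rcases div_eq_zero_iff.1 h with h | h
      · rcases mul_eq_zero.1 h with h | h
        · rcases mul_eq_zero.1 h with h | h
          · exact absurd (neg_eq_zero.1 h) s0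
          · exact absurd h c3
        · exact h
      · exact absurd h h1
  · intro a b c h h2
    have ha := a1 a
    have hb := a1 b
    have hc := a1 c
    have e : d3 ![1, dt f1 (w a) / dt f0 (w a), s * dt f2 (w a) / dt f0 (w a)]
        ![1, dt f1 (w b) / dt f0 (w b), s * dt f2 (w b) / dt f0 (w b)]
        ![1, dt f1 (w c) / dt f0 (w c), s * dt f2 (w c) / dt f0 (w c)] =
        - s * dt f2 (cr f1 f0) * d3 (w a) (w b) (w c) /
          (dt f0 (w a) * dt f0 (w b) * dt f0 (w c)) := by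
      rw [d3_def]
      simp only [Matrix.cons_val_zero, Matrix.cons_val_one, Matrix.cons_val]
      field_simp
      simp only [dt_def, cr0, cr1, cr2, d3_def]
      ring
    rw [e] at h2
    rcases div_eq_zero_iff.1 h2 with h2 | h2
    · rcases mul_eq_zero.1 h2 with h2 | h2
      · rcases mul_eq_zero.1 h2 with h2 | h2
        · exact absurd (neg_eq_zero.1 h2) s0
        · exact absurd h2 c3
      · exact h h2
    · exact absurd h2 (mul_ne_zero (mul_ne_zero ha hb) hc)

/-- generic parameters for the lines -/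
theorem exists_mu [Infinite k] {L : Type} [Finite L] (α β γ : L → k) (hα : ∀ t, α t ≠ 0)
    (hβ : ∀ t, β t ≠ 0) :
    ∃ μ : L → k, (∀ t, μ t ≠ 0) ∧ (∀ t, 1 - μ t * γ t - μ t ^ 2 * α t * β t ≠ 0) ∧
      ∀ s t, s ≠ t → μ s * α s ≠ μ t * α t ∧ μ s * β s ≠ μ t * β t := by
  classical
  obtain ⟨μ, hμ⟩ := avoid (k := k) (V := L → k)
    (ι := L ⊕ {q : L × L // q.1 ≠ q.2} ⊕ {q : L × L // q.1 ≠ q.2})
    (fun s => match s with
      | Sum.inl t => LinearMap.ker (LinearMap.proj (R := k) (φ := fun _ : L => k) t)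
      | Sum.inr (Sum.inl q) => LinearMap.ker
          (α q.1.1 • LinearMap.proj (R := k) (φ := fun _ : L => k) q.1.1 -
            α q.1.2 • LinearMap.proj (R := k) (φ := fun _ : L => k) q.1.2)
      | Sum.inr (Sum.inr q) => LinearMap.ker
          (β q.1.1 • LinearMap.proj (R := k) (φ := fun _ : L => k) q.1.1 -
            β q.1.2 • LinearMap.proj (R := k) (φ := fun _ : L => k) q.1.2)) (by
      rintro (t | ⟨⟨s, t⟩, h⟩ | ⟨⟨s, t⟩, h⟩)
      · refine ⟨Pi.single t 1, ?_⟩
        simp
      · refine ⟨Pi.single s 1, ?_⟩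
        have h' : t ≠ s := fun e => h e.symm
        simp [h', hα]
      · refine ⟨Pi.single s 1, ?_⟩
        have h' : t ≠ s := fun e => h e.symm
        simp [h', hβ])
  have h1 : ∀ t, μ t ≠ 0 := fun t => by simpa using hμ (Sum.inl t)
  have h2 : ∀ s t, s ≠ t → μ s * α s ≠ μ t * α t := fun s t h e =>
    hμ (Sum.inr (Sum.inl ⟨(s, t), h⟩)) (by
      rw [LinearMap.mem_ker]
      simp only [LinearMap.sub_apply, LinearMap.smul_apply, LinearMap.proj_apply, smul_eq_mul]
      linear_combination e)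
  have h3 : ∀ s t, s ≠ t → μ s * β s ≠ μ t * β t := fun s t h e =>
    hμ (Sum.inr (Sum.inr ⟨(s, t), h⟩)) (by
      rw [LinearMap.mem_ker]
      simp only [LinearMap.sub_apply, LinearMap.smul_apply, LinearMap.proj_apply, smul_eq_mul]
      linear_combination e)
  obtain ⟨σ, hσ⟩ := exists_scalar (k := k) (ι := Option L) (fun o => match o with
    | none => Polynomial.X
    | some t => 1 - Polynomial.C (μ t * γ t) * Polynomial.X -
        Polynomial.C (μ t ^ 2 * α t * β t) * Polynomial.X ^ 2) (by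
      rintro (_ | i)
      · exact Polynomial.X_ne_zero
      · intro h
        have h1 := congrArg (Polynomial.eval 0) h
        simp at h1)
  have s0 : σ ≠ 0 := by simpa using hσ none
  refine ⟨fun t => σ * μ t, fun t => mul_ne_zero s0 (h1 t), fun t => ?_, fun s t h => ⟨?_, ?_⟩⟩
  · have := hσ (some t)
    simp only [Polynomial.eval_sub, Polynomial.eval_one, Polynomial.eval_mul, Polynomial.eval_C,
      Polynomial.eval_X, Polynomial.eval_pow] at this
    intro h
    apply this
    linear_combination h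
  · intro e
    apply h2 s t h
    apply mul_left_cancel₀ s0
    linear_combination e
  · intro e
    apply h3 s t h
    apply mul_left_cancel₀ s0
    linear_combination e

end field

end Pool.Agent.KS6_28.HC
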