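import Pool.Agent.KS6_28.HC.Conf
import Pool.Graph.R_seed8.Helper947.Crv.E6
import Pool.Graph.R_seed8.Helper947.Crv.F1
import Pool.Graph.R_seed8.Helper947.Crv.F6

/-!
# Lifting of configurations
-/

set_option autoImplicit false

open MvPolynomial Filter
open Pool.Agent.Helper947.Crv

namespace Pool.Agent.KS6_28.HC

/-- `ω` is a configuration over `F` with the collinear triples given by the lines `l`, which
specializes to the configuration `w` in the weak sense that triples which are not collinear in `w`
are not collinear in `ω` -/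
structure Real {k F : Type*} [Field k] [Field F] {P L : Type} (w : P → Fin 3 → k)
    (l : L → Fin 3 → k) (ω : P → Fin 3 → F) : Prop where
  col : ∀ t a b c, dt (l t) (w a) = 0 → dt (l t) (w b) = 0 → dt (l t) (w c) = 0 →
    d3 (ω a) (ω b) (ω c) = 0
  non : ∀ a b c, d3 (w a) (w b) (w c) ≠ 0 → d3 (ω a) (ω b) (ω c) ≠ 0

theorem detmap {R S : Type*} [CommRing R] [CommRing S] (φ : R →+* S)
    (A B : Matrix (Fin 2) (Fin 2) R) : (A.map φ - B.map φ).det = φ ((A - B).det) := by
  rw [RingHom.map_det]
  congr 1
  ext i j
  simp only [Matrix.sub_apply, Matrix.map_apply, RingHom.mapMatrix_apply, map_sub]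

theorem bvmap {R S : Type*} [CommRing R] [CommRing S] (φ : R →+* S)
    (A B : Matrix (Fin 2) (Fin 2) R) : bv (A.map φ) (B.map φ) = fun x => φ (bv A B x) := by
  funext x
  fin_cases x <;> simp [bv, Matrix.sub_apply, Matrix.map_apply]

theorem det4map {R S : Type*} [CommRing R] [CommRing S] (φ : R →+* S)
    (a b c d : Fin 4 → R) :
    Matrix.det ![(fun x => φ (a x)), (fun x => φ (b x)), (fun x => φ (c x)), (fun x => φ (d x))] =
      φ (Matrix.det ![a, b, c, d]) := by
  have h := RingHom.map_det φ (Matrix.of ![a, b, c, d])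
  have h2 : φ.mapMatrix (Matrix.of ![a, b, c, d]) =
      Matrix.of ![(fun x => φ (a x)), (fun x => φ (b x)), (fun x => φ (c x)),
        (fun x => φ (d x))] := by
    ext i j
    fin_cases i <;> rfl
  rw [h2] at h
  exact h.symm

theorem lift_vectors {K : Type*} [Field K] [IsAlgClosed K] (V : ValuationSubring K)
    {k : Type*} [Field k] (θ : k →+* IsLocalRing.ResidueField V) {P L : Type} [Fintype P]
    [Fintype L] [DecidableEq P] [DecidableEq L]
    {A : Option (Option L) → Matrix (Fin 2) (Fin 2) k} {B : Option P → Matrix (Fin 2) (Fin 2) k}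
    {I : L → P → Prop} {E : Finset (Option (Option L) × Option P)}
    (hE : ∀ j i, (j, i) ∈ E ↔ inc I j i) {e : ℕ} (hgood : (mkCfg A B E e).Good e E)
    (he : 2 * E.card + 1 < e) {Id : Ideal (Pl K)} (hI : Hom Id)
    (h : ∀ᶠ m in atTop, ∀ p ∈ Fm _ m, p ∈ red V Id ↔ p ∈ ((mkCfg A B E e).map θ).J0) :
    ∃ v : Option P → Fin 4 → K,
      (∀ t a b c, I t a → I t b → I t c →
        Matrix.det ![v none, v (some a), v (some b), v (some c)] = 0) ∧
      ∀ a b c, Matrix.det ![bv (A none) (B none), bv (A none) (B (some a)),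
          bv (A none) (B (some b)), bv (A none) (B (some c))] ≠ 0 →
        Matrix.det ![v none, v (some a), v (some b), v (some c)] ≠ 0 := by
  have hg := Good.map hgood θ
  obtain ⟨A', B', hA, hB, hdet, _⟩ := core V hg he hI h
  have hcA : ∀ j, ((mkCfg A B E e).map θ).A j = (A j).map θ := fun j => rfl
  have hcB : ∀ i, ((mkCfg A B E e).map θ).B i = (B i).map θ := fun i => rfl
  have hVinj : Function.Injective V.subtype := Subtype.val_injective
  have hskew : ∀ j j', j ≠ j' → ((A' j).map V.subtype - (A' j').map V.subtype).det ≠ 0 := by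
    intro j j' hj hcon
    rw [detmap] at hcon
    have h1 : (A' j - A' j').det = 0 := hVinj (by rw [hcon, map_zero])
    have h3 := hg.skewA j j' hj
    rw [← hA j, ← hA j', detmap, h1, map_zero] at h3
    exact h3 rfl
  have hneq : ∀ j j', j ≠ j' → (A' j).map V.subtype ≠ (A' j').map V.subtype := by
    intro j j' hj hcon
    apply hskew j j' hj
    rw [hcon, sub_self, Matrix.det_zero]
  have hd : ∀ j i, inc I j i → ((A' j).map V.subtype - (B' i).map V.subtype).det = 0 := by
    intro j i hji
    rw [detmap, hdet j i ((hE j i).2 hji), map_zero]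
  refine ⟨fun i => bv ((A' none).map V.subtype) ((B' i).map V.subtype), ?_, ?_⟩
  · intro t a b c ha hb hc
    refine bracket_zero (A0 := (A' none).map V.subtype) (A1 := (A' (some none)).map V.subtype)
      (A2 := (A' (some (some t))).map V.subtype) (hskew _ _ (by simp)) (hneq _ _ (by simp))
      (hneq _ _ (by simp))
      ![(B' none).map V.subtype, (B' (some a)).map V.subtype, (B' (some b)).map V.subtype,
        (B' (some c)).map V.subtype] ?_ ?_ ?_
    · intro s
      fin_cases s <;> exact hd _ _ trivial
    · intro s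
      fin_cases s <;> exact hd _ _ trivial
    · intro s
      fin_cases s
      · exact hd _ _ trivial
      · exact hd _ _ ha
      · exact hd _ _ hb
      · exact hd _ _ hc
  · intro a b c hne hzero
    apply hne
    simp only [bvmap] at hzero
    rw [det4map] at hzero
    have h3 : Matrix.det ![bv (A' none) (B' none), bv (A' none) (B' (some a)),
        bv (A' none) (B' (some b)), bv (A' none) (B' (some c))] = 0 :=
      hVinj (by rw [hzero, map_zero])
    have h4 := det4map (IsLocalRing.residue V) (bv (A' none) (B' none))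
      (bv (A' none) (B' (some a))) (bv (A' none) (B' (some b))) (bv (A' none) (B' (some c)))
    rw [h3, map_zero] at h4
    have e2 : ∀ i, (fun x => (IsLocalRing.residue V) (bv (A' none) (B' i) x)) =
        (fun x => θ (bv (A none) (B i) x)) := by
      intro i
      rw [← bvmap, ← bvmap, hA, hB, hcA, hcB]
    rw [e2, e2, e2, e2, det4map] at h4
    exact θ.injective (by rw [h4, map_zero])

/-- plane coordinates -/
theorem exists_real {k K : Type*} [Field k] [Field K] {P L : Type} (w : P → Fin 3 → k)
    (l : L → Fin 3 → k) (v : Option P → Fin 4 → K)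
    (h1 : ∀ t a b c, dt (l t) (w a) = 0 → dt (l t) (w b) = 0 → dt (l t) (w c) = 0 →
      Matrix.det ![v none, v (some a), v (some b), v (some c)] = 0)
    (h2 : ∀ a b c, d3 (w a) (w b) (w c) ≠ 0 →
      Matrix.det ![v none, v (some a), v (some b), v (some c)] ≠ 0)
    (i1 i2 i3 : P) (h3 : d3 (w i1) (w i2) (w i3) ≠ 0) :
    ∃ ω : P → Fin 3 → K, Real w l ω ∧ ω i1 = ![1, 0, 0] ∧ ω i2 = ![0, 1, 0] ∧
      ω i3 = ![0, 0, 1] := by
  set M : Matrix (Fin 4) (Fin 4) K :=
    Matrix.of ![v none, v (some i1), v (some i2), v (some i3)] with hM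
  have hdet : M.det ≠ 0 := h2 i1 i2 i3 h3
  have hunit : IsUnit M.det := isUnit_iff_ne_zero.mpr hdet
  set u : Option P → Fin 4 → K := fun i => Matrix.vecMul (v i) M⁻¹ with hu
  have huM : ∀ i, Matrix.vecMul (u i) M = v i := by
    intro i
    rw [hu]
    show Matrix.vecMul (Matrix.vecMul (v i) M⁻¹) M = v i
    rw [Matrix.vecMul_vecMul, Matrix.nonsing_inv_mul M hunit, Matrix.vecMul_one]
  have hrow : ∀ (s : Fin 4), Matrix.vecMul (M s) M⁻¹ = Pi.single s 1 := by
    intro s
    have h1 : M s = Matrix.vecMul (Pi.single s 1) M := by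
      rw [Matrix.single_one_vecMul]
      rfl
    rw [h1, Matrix.vecMul_vecMul, Matrix.mul_nonsing_inv M hunit, Matrix.vecMul_one]
  have u0 : u none = Pi.single 0 1 := hrow 0
  have u1 : u (some i1) = Pi.single 1 1 := hrow 1
  have u2 : u (some i2) = Pi.single 2 1 := hrow 2
  have u3 : u (some i3) = Pi.single 3 1 := hrow 3
  let ω : P → Fin 3 → K := fun i => ![u (some i) 1, u (some i) 2, u (some i) 3]
  have key : ∀ a b c, Matrix.det ![v none, v (some a), v (some b), v (some c)] =
      d3 (ω a) (ω b) (ω c) * M.det := by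
    intro a b c
    have e : (Matrix.of ![v none, v (some a), v (some b), v (some c)]) =
        (Matrix.of ![u none, u (some a), u (some b), u (some c)]) * M := by
      ext i j
      rw [← huM none, ← huM (some a), ← huM (some b), ← huM (some c)]
      fin_cases i <;> rfl
    show Matrix.det (Matrix.of ![v none, v (some a), v (some b), v (some c)]) = _
    rw [e, Matrix.det_mul, u0]
    congr 1
    have e2 := det4_eq (Pi.single 0 1 : Fin 4 → K) (u (some a)) (u (some b)) (u (some c))
    refine e2.trans ?_
    rw [d3_def]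
    simp [ω]
    ring
  refine ⟨ω, ⟨fun t a b c ha hb hc => ?_, fun a b c h => ?_⟩, ?_, ?_, ?_⟩
  · have := h1 t a b c ha hb hc
    rw [key] at this
    exact (mul_eq_zero.1 this).resolve_right hdet
  · have := h2 a b c h
    rw [key] at this
    exact left_ne_zero_of_mul this
  · funext s
    fin_cases s <;> simp [ω, u1]
  · funext s
    fin_cases s <;> simp [ω, u2]
  · funext s
    fin_cases s <;> simp [ω, u3]

end Pool.Agent.KS6_28.HC
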