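import Pool.Agent.KS6_28.HC.Base
import Pool.Graph.R_seed8.Helper947.Crv.OnlyChar
import Pool.Graph.R_seed8.Helper947.Crv.H2
import Pool.Graph.R_seed8.Helper947.Crv.H4
import Pool.Graph.R_seed8.Helper947.Crv.Z4
import Pool.Graph.R_seed8.Helper947.Hil.Final

/-!
# Components of the Hilbert scheme which exist only in characteristic `p`
-/

set_option autoImplicit false

open MvPolynomial Filter CategoryTheory CategoryTheory.Limits AlgebraicGeometry
open Pool.Agent.Helper947.Crv

namespace Pool.Agent.KS6_28.HC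

theorem bcMap_snd' {d g : ℤ} (𝓗 : HilbertScheme d g) {R R' : Type} [CommRing R]
    [CommRing R'] (φ : R →+* R') : bcMap 𝓗 φ ≫ pullback.snd _ _ =
      pullback.snd _ _ ≫ Spec.map (CommRingCat.ofHom φ) := by
  unfold bcMap pullback.map
  exact pullback.lift_snd _ _ _

/-- The curves of a configuration which is rigid with respect to `p` are not in the closure of the
characteristic zero fibre, and the same holds for their generizations. -/
theorem main_conf {p : ℕ} [Fact p.Prime] {P L : Type} [Fintype P] [Fintype L] [DecidableEq P]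
    [DecidableEq L] {d g : ℤ} (𝓗 : HilbertScheme d g)
    (x : HilbPt d g (AlgebraicClosure (ZMod p)))
    {w : P → Fin 3 → AlgebraicClosure (ZMod p)} {l : L → Fin 3 → AlgebraicClosure (ZMod p)}
    {A : Option (Option L) → Matrix (Fin 2) (Fin 2) (AlgebraicClosure (ZMod p))}
    {B : Option P → Matrix (Fin 2) (Fin 2) (AlgebraicClosure (ZMod p))}
    {E : Finset (Option (Option L) × Option P)}
    (hE : ∀ j i, (j, i) ∈ E ↔ inc (fun t i => dt (l t) (w i) = 0) j i) {e : ℕ}
    (hgood : (mkCfg A B E e).Good e E) (he : 2 * E.card + 1 < e)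
    (hnon : ∀ a b c, d3 (w a) (w b) (w c) ≠ 0 →
        Matrix.det ![bv (A none) (B none), bv (A none) (B (some a)), bv (A none) (B (some b)),
          bv (A none) (B (some c))] ≠ 0)
    (hrig : Rigid p w l)
    (hx : x.I = (mkCfg A B E e).J0) {W K0 : Type} [CommRing W] [Field K0] [CharZero K0]
    (ρ : W →+* AlgebraicClosure (ZMod p)) (hρ : Function.Surjective ρ) (ι : W →+* K0)
    {Z : Set (bc 𝓗 (AlgebraicClosure (ZMod p)))} (hxZ : ptOf 𝓗 x ∈ Z)
    {η : bc 𝓗 (AlgebraicClosure (ZMod p))} (hη : closure {η} = Z) :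
    bcMap 𝓗 ρ η ∉ closure (Set.range (bcMap 𝓗 ι)) := by
  have hp0 : p ≠ 0 := (Fact.out : p.Prime).ne_zero
  intro h
  have h1 : η ⤳ ptOf 𝓗 x := by
    rw [specializes_iff_mem_closure, hη]; exact hxZ
  have h2 : bcMap 𝓗 ρ η ⤳ bcMap 𝓗 ρ (ptOf 𝓗 x) := h1.map (bcMap 𝓗 ρ).continuous
  have h3 : bcMap 𝓗 ρ (ptOf 𝓗 x) ∈ closure (Set.range (bcMap 𝓗 ι)) :=
    h2.mem_closed isClosed_closure h
  obtain ⟨K, hK1, hK2, hK3, f, hf⟩ := exists_closure p (Set.range (bcMap 𝓗 ι)) (by
    rintro _ ⟨y', rfl⟩ K _ f hfy h0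
    obtain ⟨a, ha⟩ : ∃ a : CommRingCat.of W ⟶ CommRingCat.of K, Spec.map a = f ≫ pullback.snd _ _ :=
      ⟨Spec.preimage _, Spec.map_preimage _⟩
    have h4 : Spec.map a (ptF K) = Spec.map (CommRingCat.ofHom ι)
        (pullback.snd (terminal.from 𝓗.H) (terminal.from (Spec (CommRingCat.of K0))) y') := by
      rw [ha, Scheme.Hom.comp_apply, hfy, ← Scheme.Hom.comp_apply, bcMap_snd', Scheme.Hom.comp_apply]
    have h5 : (p : W) ∈ ((Spec.map a (ptF K)) : PrimeSpectrum W).asIdeal := by
      change a.hom p ∈ (⊥ : Ideal K)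
      rw [map_natCast]
      have : (p : K) = 0 := by exact_mod_cast h0
      rw [this]; exact Ideal.zero_mem _
    rw [h4] at h5
    have h6 : ι p ∈ ((pullback.snd (terminal.from 𝓗.H) (terminal.from (Spec (CommRingCat.of K0))) y' :
        Spec (CommRingCat.of K0)) : PrimeSpectrum K0).asIdeal := h5
    have h7 : ((pullback.snd (terminal.from 𝓗.H) (terminal.from (Spec (CommRingCat.of K0))) y' :
        Spec (CommRingCat.of K0)) : PrimeSpectrum K0).asIdeal = ⊥ := by
      rcases Ideal.eq_bot_or_top ((pullback.snd (terminal.from 𝓗.H)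
        (terminal.from (Spec (CommRingCat.of K0))) y' :
        Spec (CommRingCat.of K0)) : PrimeSpectrum K0).asIdeal with h | h
      · exact h
      · exact absurd h (PrimeSpectrum.isPrime _).ne_top
    rw [h7, map_natCast, Ideal.mem_bot] at h6
    exact hp0 (by exact_mod_cast h6)) h3
  obtain ⟨V, θ, s, -, -, hev⟩ := key 𝓗 ρ hρ x f hf hgood hx
  obtain ⟨v, hv1, hv2⟩ := lift_vectors V θ hE hgood he
    (𝓗.Φ K (f ≫ pullback.fst _ _)).hom hev
  exact hK3 (by exact_mod_cast hrig K v ⟨hv1, fun a b c h => hv2 a b c (hnon a b c h)⟩)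

theorem charZero_frac (p : ℕ) [Fact p.Prime] :
    CharZero (FractionRing (WittVector p (AlgebraicClosure (ZMod p)))) := by
  have hpp : p.Prime := Fact.out
  obtain ⟨q, hq⟩ := CharP.exists (FractionRing (WittVector p (AlgebraicClosure (ZMod p))))
  rcases CharP.char_is_prime_or_zero (FractionRing (WittVector p (AlgebraicClosure (ZMod p)))) q
    with h | h
  · exfalso
    have h1 : (q : FractionRing (WittVector p (AlgebraicClosure (ZMod p)))) = 0 :=
      CharP.cast_eq_zero _ q
    have h2 : (q : WittVector p (AlgebraicClosure (ZMod p))) = 0 := by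
      apply IsFractionRing.injective (WittVector p (AlgebraicClosure (ZMod p)))
        (FractionRing (WittVector p (AlgebraicClosure (ZMod p))))
      rw [map_natCast, h1, map_zero]
    have h3 : (q : AlgebraicClosure (ZMod p)) = 0 := by
      have := congrArg (WittVector.constantCoeff (p := p) (R := AlgebraicClosure (ZMod p))) h2
      rwa [map_natCast, map_zero] at this
    have h4 : p ∣ q := (CharP.cast_eq_zero_iff (AlgebraicClosure (ZMod p)) p q).1 h3
    have h5 : q = p := ((Nat.prime_dvd_prime_iff_eq hpp h).1 h4).symm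
    subst h5
    exact WittVector.FractionRing.p_nonzero q (AlgebraicClosure (ZMod q)) h1
  · subst h
    exact CharP.charP_to_charZero _

/-- components given by configurations -/
theorem exists_component {p n m s : ℕ} [Fact p.Prime]
    (h : HasConf (AlgebraicClosure (ZMod p)) p n m s) {e : ℕ}
    (he : 2 * (2 * (n + 1) + m + s) + 1 < e) {d g : ℤ} (hd : d = 2 * (m + 2) + (n + 1))
    (hg : 1 - g = (m + 2) * (1 + e) + (n + 1) - 2 * (2 * (n + 1) + m + s))
    (𝓗 : HilbertScheme d g) :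
    ∃ Z ∈ irreducibleComponents (bc 𝓗 (AlgebraicClosure (ZMod p))), OnlyInChar 𝓗 p Z := by
  classical
  have hinf : Infinite (AlgebraicClosure (ZMod p)) := IsAlgClosed.instInfinite
  obtain ⟨P, L, _, _, w, l, h1, h2, h3, h4, h5, h6, h7, h8⟩ := h
  obtain ⟨A, B, hA, hB, hI, h00, hnon⟩ := exists_conf w l h4 h5 h6
  let E : Finset (Option (Option L) × Option P) :=
    Finset.univ.filter fun q => inc (fun t i => dt (l t) (w i) = 0) q.1 q.2
  have hE : ∀ j i, (j, i) ∈ E ↔ inc (fun t i => dt (l t) (w i) = 0) j i := by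
    intro j i
    simp only [E, Finset.mem_filter, Finset.mem_univ, true_and]
  have hcard : E.card = 2 * (n + 1) + m + s := by
    have := card_inc (fun (t : L) (i : P) => dt (l t) (w i) = 0)
    rw [h1, h2, h3] at this
    exact this
  have hgood : (mkCfg A B E e).Good e E := by
    refine good_of A B E ?_ hA hB (fun j i => (hI j i).trans (hE j i).symm)
      (fun j i _ => h00 j i)
    rw [Fintype.card_option, h1]
    omega
  obtain ⟨x, hx⟩ := exists_pt hgood (d := d) (g := g)
    (by rw [hd, Fintype.card_option, Fintype.card_option, Fintype.card_option, h1, h2]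
        push_cast; ring)
    (by rw [hg, Fintype.card_option, Fintype.card_option, Fintype.card_option, h1, h2, hcard]
        push_cast; ring)
  refine ⟨irreducibleComponent (ptOf 𝓗 x), irreducibleComponent_mem_irreducibleComponents _, ?_⟩
  have hirr : IsIrreducible (irreducibleComponent (ptOf 𝓗 x)) := isIrreducible_irreducibleComponent
  have hcl : IsClosed (irreducibleComponent (ptOf 𝓗 x)) := isClosed_irreducibleComponent
  obtain ⟨η, hη⟩ := QuasiSober.sober hirr hcl
  have := charZero_frac p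
  refine ⟨η, hη, ?_⟩
  exact main_conf 𝓗 x hE hgood (by rw [hcard]; exact he) hnon h8 hx
    (WittVector.constantCoeff (p := p) (R := AlgebraicClosure (ZMod p)))
    (WittVector.constantCoeff_surjective p) _ mem_irreducibleComponent hη

/-- the choice of the number of incidences and of the degree of the double structures -/
theorem exists_params (R n : ℕ) (hn : 20 * R + 28 ≤ n) (c : ℕ)
    (hc : (4 * R + 9) * (4 * (8 * R + 19 + n) + 16 * R + 1) ≤ c) :
    ∃ s e : ℕ, 16 * R + 20 ≤ s ∧ s ≤ n ∧ 2 * (2 * (n + 1) + (4 * R + 7) + s) + 1 < e ∧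
      c + 2 * (2 * (n + 1) + (4 * R + 7) + s) = (4 * R + 7 + 2) * (1 + e) + (n + 1) := by
  obtain ⟨T, hT⟩ : ∃ T, T = c + 3 * (n + 1) + 2 * (4 * R + 7) + 2 * (16 * R + 20) := ⟨_, rfl⟩
  obtain ⟨r, hr⟩ : ∃ r, r = ((4 * R + 8) * T * (2 * R + 5)) % (4 * R + 9) := ⟨_, rfl⟩
  have hrM : r < 4 * R + 9 := by rw [hr]; exact Nat.mod_lt _ (by omega)
  have hdvd : (4 * R + 9) ∣ T + 2 * r := by
    have h1 : T + 2 * ((4 * R + 8) * T * (2 * R + 5)) = (4 * R + 9) * ((4 * R + 9) * T) := by ring
    have h2 : (4 * R + 8) * T * (2 * R + 5) =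
        (4 * R + 9) * ((4 * R + 8) * T * (2 * R + 5) / (4 * R + 9)) + r := by
      rw [hr]
      exact (Nat.div_add_mod _ _).symm
    set q := (4 * R + 8) * T * (2 * R + 5) / (4 * R + 9) with hq
    have h3 : T + 2 * r + (4 * R + 9) * (2 * q) = (4 * R + 9) * ((4 * R + 9) * T) := by
      rw [← h1, h2]; ring
    exact (Nat.dvd_add_left (Dvd.intro _ rfl)).1 ⟨_, h3⟩
  obtain ⟨f, hf⟩ := hdvd
  have hbig : 2 * (2 * (n + 1) + (4 * R + 7) + (16 * R + 20 + r)) + 3 ≤ f := by
    by_contra hlt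
    have h1 : f ≤ 4 * n + 40 * R + 60 + 2 * r := by omega
    have h1' : f ≤ 4 * n + 48 * R + 76 := by omega
    have h2 : (4 * R + 9) * f ≤ (4 * R + 9) * (4 * n + 48 * R + 76) := Nat.mul_le_mul_left _ h1'
    have h3 : (4 * R + 9) * (4 * (8 * R + 19 + n) + 16 * R + 1) =
        (4 * R + 9) * (4 * n + 48 * R + 76) + (4 * R + 9) := by ring
    omega
  refine ⟨16 * R + 20 + r, f - 1, by omega, by omega, by omega, ?_⟩
  have h1 : 1 + (f - 1) = f := by omega
  rw [h1]
  have h2 : (4 * R + 7 + 2) * f = T + 2 * r := by rw [hf]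
  rw [h2, hT]
  ring

/-- **Main theorem.** -/
theorem main_theorem (R d : ℕ) (hd : 28 * R + 47 ≤ d) (g : ℤ)
    (hg : g ≤ -((20 * R + 45) * d)) :
    Nonempty (HilbertScheme d g) ∧
      ∀ (𝓗 : HilbertScheme d g) (p : ℕ) [Fact p.Prime], p < 2 ^ (R + 1) →
        ∃ Z ∈ irreducibleComponents (bc 𝓗 (AlgebraicClosure (ZMod p))), OnlyInChar 𝓗 p Z := by
  obtain ⟨n, hn⟩ : ∃ n, d = 8 * R + 19 + n := ⟨d - (8 * R + 19), by omega⟩
  have hn2 : 20 * R + 28 ≤ n := by omega
  obtain ⟨c, hc⟩ : ∃ c : ℕ, g = 1 - (c : ℤ) := ⟨(1 - g).toNat, by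
    have : (0 : ℤ) ≤ (20 * R + 45) * d := by positivity
    have h1 : (0 : ℤ) ≤ 1 - g := by linarith
    rw [Int.toNat_of_nonneg h1]
    ring⟩
  subst hc
  have hc : (4 * R + 9) * (4 * (8 * R + 19 + n) + 16 * R + 1) ≤ c := by
    have h1 : ((20 * R + 45) * d : ℤ) ≤ c := by linarith
    have h2 : (20 * R + 45) * d ≤ c := by exact_mod_cast h1
    refine le_trans ?_ h2
    rw [← hn, show (20 * R + 45) * d = (4 * R + 9) * (5 * d) by ring]
    exact Nat.mul_le_mul_left _ (by omega)
  obtain ⟨s, e, h1, h2, h3, h4⟩ := exists_params R n hn2 c hc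
  refine ⟨Pool.Agent.Helper947.Hil.hilbert_scheme_exists d c, ?_⟩
  intro 𝓗 p _ hp
  have hpp : p.Prime := Fact.out
  have hinf : Infinite (AlgebraicClosure (ZMod p)) := IsAlgClosed.instInfinite
  have hconf : HasConf (AlgebraicClosure (ZMod p)) p n (4 * R + 7) s :=
    hasConf hpp.ne_zero hp (CharP.cast_eq_zero _ p) h1 h2
  refine exists_component hconf (e := e) h3 ?_ ?_ 𝓗
  · rw [hn]
    push_cast
    ring
  · have h5 : ((c : ℤ)) + 2 * (2 * (n + 1) + (4 * R + 7) + s) =
        (4 * R + 7 + 2) * (1 + e) + (n + 1) := by exact_mod_cast h4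
    push_cast
    linarith

end Pool.Agent.KS6_28.HC
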