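import Pool.Agent.KS6_28.HC.Gen
import Pool.Graph.R_seed8.Helper947.Crv.F5

/-!
# Space line configurations given by plane configurations
-/

set_option autoImplicit false

open Matrix
open Pool.Agent.Helper947.Crv

namespace Pool.Agent.KS6_28.HC

variable {k : Type*} [Field k]

/-- the lines which will be doubled: two lines and one for each line of the plane configuration -/
def matA {L : Type} (α β γ μ : L → k) : Option (Option L) → Matrix (Fin 2) (Fin 2) k
  | none => !![0, 0; 0, 0]
  | some none => !![1, 0; 0, 1]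
  | some (some t) =>
    !![(1 - μ t * γ t) / (1 - μ t * γ t - μ t ^ 2 * α t * β t),
      μ t * β t / (1 - μ t * γ t - μ t ^ 2 * α t * β t);
      μ t * α t / (1 - μ t * γ t - μ t ^ 2 * α t * β t),
      1 / (1 - μ t * γ t - μ t ^ 2 * α t * β t)]

/-- the simple lines: one line and one for each point of the plane configuration -/
def matB {P : Type} (X Y : P → k) : Option P → Matrix (Fin 2) (Fin 2) k
  | none => !![1, 0; 0, 0]
  | some i => !![X i * Y i / (1 + X i * Y i), X i / (1 + X i * Y i);
      Y i / (1 + X i * Y i), 1 / (1 + X i * Y i)]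

section facts

variable {P L : Type} {α β γ μ : L → k} {X Y : P → k}

theorem det_A_sub (hα : ∀ t, α t ≠ 0) (hβ : ∀ t, β t ≠ 0) (hμ : ∀ t, μ t ≠ 0)
    (hδ : ∀ t, 1 - μ t * γ t - μ t ^ 2 * α t * β t ≠ 0)
    (hd : ∀ s t, s ≠ t → μ s * α s ≠ μ t * α t ∧ μ s * β s ≠ μ t * β t) :
    ∀ j j' : Option (Option L), j ≠ j' → (matA α β γ μ j - matA α β γ μ j').det ≠ 0 := by
  rintro (_ | _ | s) (_ | _ | t) hjj
  · exact absurd rfl hjj
  · simp [matA, Matrix.det_fin_two]
  · have h1 := hδ t
    simp only [matA, Matrix.det_fin_two, Matrix.sub_apply, Matrix.of_apply, Matrix.cons_val', Matrix.cons_val_zero,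
      Matrix.cons_val_one, Matrix.cons_val_fin_one]
    intro h
    field_simp at h
    apply h1
    linear_combination h
  · simp [matA, Matrix.det_fin_two]
  · exact absurd rfl hjj
  · have h1 := hδ t
    simp only [matA, Matrix.det_fin_two, Matrix.sub_apply, Matrix.of_apply, Matrix.cons_val', Matrix.cons_val_zero,
      Matrix.cons_val_one, Matrix.cons_val_fin_one]
    intro h
    have h2 : μ t ^ 2 * α t * β t * (1 - μ t * γ t - μ t ^ 2 * α t * β t) = 0 := by
      field_simp at h
      linear_combination -h
    exact absurd h2 (mul_ne_zero (mul_ne_zero (mul_ne_zero (pow_ne_zero _ (hμ t)) (hα t))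
      (hβ t)) h1)
  · have h1 := hδ s
    simp only [matA, Matrix.det_fin_two, Matrix.sub_apply, Matrix.of_apply, Matrix.cons_val', Matrix.cons_val_zero,
      Matrix.cons_val_one, Matrix.cons_val_fin_one]
    intro h
    field_simp at h
    apply h1
    linear_combination h
  · have h1 := hδ s
    simp only [matA, Matrix.det_fin_two, Matrix.sub_apply, Matrix.of_apply, Matrix.cons_val', Matrix.cons_val_zero,
      Matrix.cons_val_one, Matrix.cons_val_fin_one]
    intro h
    have h2 : μ s ^ 2 * α s * β s * (1 - μ s * γ s - μ s ^ 2 * α s * β s) = 0 := by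
      field_simp at h
      linear_combination -h
    exact absurd h2 (mul_ne_zero (mul_ne_zero (mul_ne_zero (pow_ne_zero _ (hμ s)) (hα s))
      (hβ s)) h1)
  · have hst : s ≠ t := fun h => hjj (by rw [h])
    have h1 := hδ s
    have h2 := hδ t
    obtain ⟨h3, h4⟩ := hd s t hst
    have e : (matA α β γ μ (some (some s)) - matA α β γ μ (some (some t))).det =
        - (μ s * α s - μ t * α t) * (μ s * β s - μ t * β t) /
          ((1 - μ s * γ s - μ s ^ 2 * α s * β s) * (1 - μ t * γ t - μ t ^ 2 * α t * β t)) := by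
      simp only [matA, Matrix.det_fin_two, Matrix.sub_apply, Matrix.of_apply, Matrix.cons_val', Matrix.cons_val_zero,
        Matrix.cons_val_one, Matrix.cons_val_fin_one]
      field_simp
      ring
    rw [e]
    refine div_ne_zero (mul_ne_zero (neg_ne_zero.2 (sub_ne_zero.2 h3)) (sub_ne_zero.2 h4))
      (mul_ne_zero h1 h2)

theorem det_B_sub (hX : ∀ i j, i ≠ j → X i ≠ X j) (hY : ∀ i j, i ≠ j → Y i ≠ Y j)
    (hs : ∀ i, 1 + X i * Y i ≠ 0) :
    ∀ i i' : Option P, i ≠ i' → (matB X Y i - matB X Y i').det ≠ 0 := by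
  rintro (_ | i) (_ | j) hij
  · exact absurd rfl hij
  · have h1 := hs j
    simp only [matB, Matrix.det_fin_two, Matrix.sub_apply, Matrix.of_apply, Matrix.cons_val', Matrix.cons_val_zero,
      Matrix.cons_val_one, Matrix.cons_val_fin_one]
    intro h
    field_simp at h
    apply h1
    linear_combination -h
  · have h1 := hs i
    simp only [matB, Matrix.det_fin_two, Matrix.sub_apply, Matrix.of_apply, Matrix.cons_val', Matrix.cons_val_zero,
      Matrix.cons_val_one, Matrix.cons_val_fin_one]
    intro h
    field_simp at h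
    apply h1
    linear_combination -h
  · have hne : i ≠ j := fun h => hij (by rw [h])
    have h1 := hs i
    have h2 := hs j
    have e : (matB X Y (some i) - matB X Y (some j)).det =
        - (X i - X j) * (Y i - Y j) / ((1 + X i * Y i) * (1 + X j * Y j)) := by
      simp only [matB, Matrix.det_fin_two, Matrix.sub_apply, Matrix.of_apply, Matrix.cons_val', Matrix.cons_val_zero,
        Matrix.cons_val_one, Matrix.cons_val_fin_one]
      field_simp
      ring
    rw [e]
    exact div_ne_zero (mul_ne_zero (neg_ne_zero.2 (sub_ne_zero.2 (hX _ _ hne)))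
      (sub_ne_zero.2 (hY _ _ hne))) (mul_ne_zero h1 h2)

/-- the meeting pairs -/
def inc (I : L → P → Prop) : Option (Option L) → Option P → Prop
  | none, _ => True
  | some none, _ => True
  | some (some _), none => True
  | some (some t), some i => I t i

theorem det_AB (hμ : ∀ t, μ t ≠ 0)
    (hδ : ∀ t, 1 - μ t * γ t - μ t ^ 2 * α t * β t ≠ 0) (hs : ∀ i, 1 + X i * Y i ≠ 0) :
    ∀ (j : Option (Option L)) (i : Option P), (matA α β γ μ j - matB X Y i).det = 0 ↔
      inc (fun t i => α t * X i + β t * Y i + γ t = 0) j i := by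
  rintro (_ | _ | t) (_ | i)
  · simp [matA, matB, Matrix.det_fin_two, inc]
  · have h1 := hs i
    simp only [matA, matB, Matrix.det_fin_two, inc, Matrix.sub_apply, Matrix.of_apply, Matrix.cons_val',
      Matrix.cons_val_zero, Matrix.cons_val_one, Matrix.cons_val_fin_one, iff_true]
    field_simp
    ring
  · simp [matA, matB, Matrix.det_fin_two, inc]
  · have h1 := hs i
    simp only [matA, matB, Matrix.det_fin_two, inc, Matrix.sub_apply, Matrix.of_apply, Matrix.cons_val',
      Matrix.cons_val_zero, Matrix.cons_val_one, Matrix.cons_val_fin_one, iff_true]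
    field_simp
    ring
  · have h1 := hδ t
    simp only [matA, matB, Matrix.det_fin_two, inc, Matrix.sub_apply, Matrix.of_apply, Matrix.cons_val',
      Matrix.cons_val_zero, Matrix.cons_val_one, Matrix.cons_val_fin_one, iff_true]
    field_simp
    ring
  · have h1 := hδ t
    have h2 := hs i
    have e : (matA α β γ μ (some (some t)) - matB X Y (some i)).det =
        μ t * (α t * X i + β t * Y i + γ t) /
          ((1 - μ t * γ t - μ t ^ 2 * α t * β t) * (1 + X i * Y i)) := by
      simp only [matA, matB, Matrix.det_fin_two, Matrix.sub_apply, Matrix.of_apply, Matrix.cons_val',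
        Matrix.cons_val_zero, Matrix.cons_val_one, Matrix.cons_val_fin_one]
      field_simp
      ring
    rw [e]
    simp only [inc]
    constructor
    · intro h
      rcases div_eq_zero_iff.1 h with h | h
      · exact (mul_eq_zero.1 h).resolve_left (hμ t)
      · exact absurd h (mul_ne_zero h1 h2)
    · intro h
      rw [h, mul_zero, zero_div]

theorem det_B (hs : ∀ i, 1 + X i * Y i ≠ 0) (i : Option P) : (matB X Y i).det = 0 := by
  rcases i with _ | i
  · simp [matB, Matrix.det_fin_two]
  · have h1 := hs i
    simp only [matB, Matrix.det_fin_two, Matrix.of_apply, Matrix.cons_val', Matrix.cons_val_zero,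
      Matrix.cons_val_one, Matrix.cons_val_fin_one]
    field_simp
    ring

theorem B_ne (hs : ∀ i, 1 + X i * Y i ≠ 0) (i : Option P) : matB X Y i ≠ 0 := by
  rcases i with _ | i
  · intro h
    have := congrFun (congrFun h 0) 0
    simp [matB] at this
  · intro h
    have h1 := congrFun (congrFun h 1) 1
    simp [matB] at h1
    exact hs i h1

theorem A_ne_B (hα : ∀ t, α t ≠ 0) (hβ : ∀ t, β t ≠ 0) (hμ : ∀ t, μ t ≠ 0)
    (hδ : ∀ t, 1 - μ t * γ t - μ t ^ 2 * α t * β t ≠ 0)
    (hd : ∀ s t, s ≠ t → μ s * α s ≠ μ t * α t ∧ μ s * β s ≠ μ t * β t)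
    (hs : ∀ i, 1 + X i * Y i ≠ 0) (j : Option (Option L)) (i : Option P) :
    matA α β γ μ j ≠ matB X Y i := by
  intro h
  by_cases hj : j = none
  · subst hj
    apply B_ne hs i
    rw [← h]
    ext a b
    fin_cases a <;> fin_cases b <;> rfl
  · have h1 := det_A_sub hα hβ hμ hδ hd j none hj
    apply h1
    have h2 : matA α β γ μ (none : Option (Option L)) = 0 := by
      ext a b
      fin_cases a <;> fin_cases b <;> rfl
    rw [h2, sub_zero, h]
    exact det_B hs i

end facts

/-- change of coordinates -/
def ch (r s : k) (D : Matrix (Fin 2) (Fin 2) k) : Matrix (Fin 2) (Fin 2) k :=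
  !![(D 0 0 + r * D 0 1) + s * (D 1 0 + r * D 1 1), D 0 1 + s * D 1 1;
    D 1 0 + r * D 1 1, D 1 1]

theorem ch00 (r s : k) (D : Matrix (Fin 2) (Fin 2) k) :
    ch r s D 0 0 = (D 0 0 + r * D 0 1) + s * (D 1 0 + r * D 1 1) := rfl

theorem ch01 (r s : k) (D : Matrix (Fin 2) (Fin 2) k) :
    ch r s D 0 1 = D 0 1 + s * D 1 1 := rfl

theorem ch10 (r s : k) (D : Matrix (Fin 2) (Fin 2) k) :
    ch r s D 1 0 = D 1 0 + r * D 1 1 := rfl

theorem ch11 (r s : k) (D : Matrix (Fin 2) (Fin 2) k) :
    ch r s D 1 1 = D 1 1 := rfl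

theorem ch_sub (r s : k) (D D' : Matrix (Fin 2) (Fin 2) k) :
    ch r s D - ch r s D' = ch r s (D - D') := by
  ext a b
  fin_cases a <;> fin_cases b <;> simp [ch, Matrix.sub_apply] <;> ring

theorem ch_det (r s : k) (D : Matrix (Fin 2) (Fin 2) k) : (ch r s D).det = D.det := by
  rw [Matrix.det_fin_two, Matrix.det_fin_two, ch00, ch01, ch10, ch11]
  ring

theorem exists_rs [Infinite k] {ι : Type*} [Finite ι] (D : ι → Matrix (Fin 2) (Fin 2) k)
    (hD : ∀ i, D i ≠ 0) : ∃ r s : k, ∀ i, ch r s (D i) 0 0 ≠ 0 := by
  classical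
  have hD' : ∀ i, (Polynomial.C (D i 0 0) + Polynomial.C (D i 0 1) * Polynomial.X ≠ 0) ∨
      (Polynomial.C (D i 1 0) + Polynomial.C (D i 1 1) * Polynomial.X ≠ 0) := by
    intro i
    by_contra! h
    apply hD i
    have a0 := congrArg (fun q => Polynomial.coeff q 0) h.1
    have a1 := congrArg (fun q => Polynomial.coeff q 1) h.1
    have b0 := congrArg (fun q => Polynomial.coeff q 0) h.2
    have b1 := congrArg (fun q => Polynomial.coeff q 1) h.2
    simp at a0 a1 b0 b1
    ext a b
    fin_cases a <;> fin_cases b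
    · exact a0
    · exact a1
    · exact b0
    · exact b1
  obtain ⟨r, hr⟩ := exists_scalar (k := k) (fun i : ι =>
    if Polynomial.C (D i 0 0) + Polynomial.C (D i 0 1) * Polynomial.X = 0 then
      Polynomial.C (D i 1 0) + Polynomial.C (D i 1 1) * Polynomial.X else
      Polynomial.C (D i 0 0) + Polynomial.C (D i 0 1) * Polynomial.X) (by
      intro i
      split_ifs with h
      · exact (hD' i).resolve_left fun h' => h' h
      · exact h)
  have hr' : ∀ i, D i 0 0 + r * D i 0 1 ≠ 0 ∨ D i 1 0 + r * D i 1 1 ≠ 0 := by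
    intro i
    have h := hr i
    split_ifs at h with h'
    · right
      intro h2
      apply h
      simp only [Polynomial.eval_add, Polynomial.eval_C, Polynomial.eval_mul, Polynomial.eval_X]
      linear_combination h2
    · left
      intro h2
      apply h
      simp only [Polynomial.eval_add, Polynomial.eval_C, Polynomial.eval_mul, Polynomial.eval_X]
      linear_combination h2
  obtain ⟨s, hs⟩ := exists_scalar (k := k) (fun i : ι =>
      Polynomial.C (D i 0 0 + r * D i 0 1) +
        Polynomial.C (D i 1 0 + r * D i 1 1) * Polynomial.X) (by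
      intro i h
      have a0 := congrArg (fun q => Polynomial.coeff q 0) h
      have a1 := congrArg (fun q => Polynomial.coeff q 1) h
      simp only [Polynomial.coeff_add, Polynomial.coeff_C_zero, Polynomial.coeff_C_mul,
        Polynomial.coeff_X_zero, mul_zero, add_zero, Polynomial.coeff_zero,
        Polynomial.coeff_X_one, mul_one, Polynomial.coeff_C_succ, zero_add] at a0 a1
      rcases hr' i with h1 | h1
      · exact h1 a0
      · exact h1 a1)
  refine ⟨r, s, fun i h => hs i ?_⟩
  rw [ch00] at h
  simp only [Polynomial.eval_add, Polynomial.eval_C, Polynomial.eval_mul, Polynomial.eval_X]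
  linear_combination h

end Pool.Agent.KS6_28.HC
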