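import Pool.Agent.KS6_28.HC.Lift

/-!
# Adding points to plane configurations
-/

set_option autoImplicit false

namespace Pool.Agent.KS6_28.HC

/-- a configuration in the projective 3-space with the collinearities of the plane configuration,
projected from the vector `v none` -/
structure L4 {k F : Type*} [Field k] [Field F] {P L : Type} (w : P → Fin 3 → k)
    (l : L → Fin 3 → k) (v : Option P → Fin 4 → F) : Prop where
  col : ∀ t a b c, dt (l t) (w a) = 0 → dt (l t) (w b) = 0 → dt (l t) (w c) = 0 →
    Matrix.det ![v none, v (some a), v (some b), v (some c)] = 0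
  non : ∀ a b c, d3 (w a) (w b) (w c) ≠ 0 →
    Matrix.det ![v none, v (some a), v (some b), v (some c)] ≠ 0

/-- the configuration can be realized only over fields in which `p` is zero -/
def Rigid (p : ℕ) {k : Type*} [Field k] {P L : Type} (w : P → Fin 3 → k)
    (l : L → Fin 3 → k) : Prop :=
  ∀ (F : Type) [Field F] (v : Option P → Fin 4 → F), L4 w l v → (p : F) = 0

open Classical in
/-- there is a rigid configuration with `n` points, `m` lines and `s` incidences -/
def HasConf (k : Type*) [Field k] (p n m s : ℕ) : Prop :=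
  ∃ (P L : Type) (_ : Fintype P) (_ : Fintype L) (w : P → Fin 3 → k) (l : L → Fin 3 → k),
    Fintype.card P = n ∧ Fintype.card L = m ∧
    (Finset.univ.filter fun q : L × P => dt (l q.1) (w q.2) = 0).card = s ∧
    (∀ i, w i ≠ 0) ∧ (∀ i j, i ≠ j → cr (w i) (w j) ≠ 0) ∧ (∀ t, l t ≠ 0) ∧
    (∃ t0, ∀ t, t ≠ t0 → cr (l t) (l t0) ≠ 0) ∧ Rigid p w l

section

variable {k : Type*} [Field k]

/-- the cross product with a vector -/
def crL (a : Fin 3 → k) : (Fin 3 → k) →ₗ[k] (Fin 3 → k) where
  toFun := cr a
  map_add' := fun x y => by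
    funext i; fin_cases i <;> simp [cr] <;> ring
  map_smul' := fun r x => by
    funext i; fin_cases i <;> simp [cr] <;> ring

theorem crL_apply (a x : Fin 3 → k) : crL a x = cr a x := rfl

theorem cr_cr (a y w : Fin 3 → k) : cr (cr a y) w = fun i => dt a w * y i - dt y w * a i := by
  funext i
  fin_cases i <;> simp [cr, dt_def] <;> ring

theorem exists_notMem_both {a : Fin 3 → k} (ha : a ≠ 0) {w : Fin 3 → k} (hw : w ≠ 0) :
    ∃ y, y ∉ Submodule.comap (crL a) (crK w) := by
  by_cases h : dt a w = 0
  · obtain ⟨y, hy⟩ := exists_notMem_dtK hw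
    refine ⟨y, fun h1 => ?_⟩
    rw [Submodule.mem_comap, crL_apply, mem_crK, cr_cr] at h1
    have hy' : dt y w ≠ 0 := hy
    apply ha
    funext i
    have h2 := congrFun h1 i
    simp only [h, zero_mul, zero_sub, Pi.zero_apply, neg_eq_zero] at h2
    exact (mul_eq_zero.1 h2).resolve_left hy'
  · obtain ⟨y, hy⟩ := exists_notMem_crK ha
    refine ⟨y, fun h1 => hy ?_⟩
    rw [Submodule.mem_comap, crL_apply, mem_crK, cr_cr] at h1
    rw [mem_crK]
    have h2 : ∀ i, dt a w * y i = dt y w * a i := fun i => by
      have := congrFun h1 i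
      simp only [Pi.zero_apply] at this
      linear_combination this
    have h3 : ∀ i j, y i * a j - y j * a i = 0 := by
      intro i j
      have : dt a w * (y i * a j - y j * a i) = 0 := by
        linear_combination a j * h2 i - a i * h2 j
      exact (mul_eq_zero.1 this).resolve_left h
    funext i
    fin_cases i
    · exact h3 1 2
    · exact h3 2 0
    · exact h3 0 1

/-- adding a point -/
theorem HasConf.add {p n m s : ℕ} {P L : Type} [Fintype P] [Fintype L] {w : P → Fin 3 → k}
    {l : L → Fin 3 → k} (h1 : Fintype.card P = n) (h2 : Fintype.card L = m)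
    (h4 : ∀ i, w i ≠ 0) (h5 : ∀ i j, i ≠ j → cr (w i) (w j) ≠ 0) (h6 : ∀ t, l t ≠ 0)
    (h7 : ∃ t0, ∀ t, t ≠ t0 → cr (l t) (l t0) ≠ 0) (h8 : Rigid p w l) (x : Fin 3 → k)
    (hx0 : x ≠ 0) (hx : ∀ i, cr x (w i) ≠ 0)
    (h3 : ∀ [DecidablePred fun q : L × P => dt (l q.1) (w q.2) = 0]
      [DecidablePred fun t : L => dt (l t) x = 0],
      (Finset.univ.filter fun q : L × P => dt (l q.1) (w q.2) = 0).card +
      (Finset.univ.filter fun t : L => dt (l t) x = 0).card = s) :
    HasConf k p (n + 1) m s := by
  classical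
  refine ⟨Option P, L, inferInstance, inferInstance,
    fun o => match o with | none => x | some i => w i, l, ?_, h2, ?_, ?_, ?_, h6, h7, ?_⟩
  · rw [Fintype.card_option, h1]
  · rw [← h3]
    have e1 : ∀ (T : Type) [Fintype T] (R : L → T → Prop),
        (Finset.univ.filter fun q : L × T => R q.1 q.2).card =
          ∑ t : L, (Finset.univ.filter fun y : T => R t y).card := by
      intro T _ R
      rw [Finset.card_filter, Fintype.sum_prod_type]
      refine Finset.sum_congr rfl fun x _ => ?_
      rw [Finset.card_filter]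
    have e2 := e1 (Option P) (fun t o =>
      dt (l t) ((fun o : Option P => match o with | none => x | some i => w i) o) = 0)
    have e3 := e1 P (fun t i => dt (l t) (w i) = 0)
    rw [e2, e3, Finset.card_filter (fun t : L => dt (l t) x = 0), ← Finset.sum_add_distrib]
    refine Finset.sum_congr rfl fun t _ => ?_
    rw [Finset.card_filter, Fintype.sum_option, Finset.card_filter, add_comm]
  · rintro (_ | i)
    · exact hx0
    · exact h4 i
  · rintro (_ | i) (_ | j) hij
    · exact absurd rfl hij
    · exact hx j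
    · show cr (w i) x ≠ 0
      rw [cr_anti]
      exact neg_ne_zero.2 (hx i)
    · exact h5 i j fun h => hij (by rw [h])
  · intro F _ v hv
    refine h8 F (fun o => match o with | none => v none | some i => v (some (some i))) ?_
    exact ⟨fun t a b c => hv.col t (some a) (some b) (some c),
      fun a b c => hv.non (some a) (some b) (some c)⟩

/-- adding a general point -/
theorem HasConf.pad [Infinite k] {p n m s : ℕ} (h : HasConf k p n m s) :
    HasConf k p (n + 1) m s := by
  classical
  obtain ⟨P, L, _, _, w, l, h1, h2, h3, h4, h5, h6, h7, h8⟩ := h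
  obtain ⟨x, hx⟩ := avoid (k := k) (V := Fin 3 → k) (ι := L ⊕ P ⊕ Unit)
    (fun s => match s with
      | Sum.inl t => dtK (l t)
      | Sum.inr (Sum.inl i) => crK (w i)
      | Sum.inr (Sum.inr _) => ⊥) (by
      rintro (t | i | _)
      · exact exists_notMem_dtK (h6 t)
      · exact exists_notMem_crK (h4 i)
      · refine ⟨fun _ => 1, fun h => ?_⟩
        exact one_ne_zero (congrFun ((Submodule.mem_bot k).1 h) 0))
  have a1 : ∀ t, dt (l t) x ≠ 0 := fun t h0 => hx (Sum.inl t) (by
    show dt x (l t) = 0
    rw [← h0]; simp only [dt_def]; ring)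
  have a2 : ∀ i, cr x (w i) ≠ 0 := fun i => hx (Sum.inr (Sum.inl i))
  have a3 : x ≠ 0 := fun h => hx (Sum.inr (Sum.inr ())) ((Submodule.mem_bot k).2 h)
  refine HasConf.add h1 h2 h4 h5 h6 h7 h8 x a3 a2 ?_
  intro _ _
  rw [Finset.filter_false_of_mem (s := Finset.univ) (p := fun t : L => dt (l t) x = 0)
    (fun t _ => a1 t), Finset.card_empty, add_zero, ← h3]
  congr

/-- adding a point on a line -/
theorem HasConf.padLine [Infinite k] {p n m s : ℕ} (h : HasConf k p n m s) :
    HasConf k p (n + 1) m (s + 1) := by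
  classical
  obtain ⟨P, L, _, _, w, l, h1, h2, h3, h4, h5, h6, h7, h8⟩ := h
  obtain ⟨t0, ht0⟩ := h7
  obtain ⟨y, hy⟩ := avoid (k := k) (V := Fin 3 → k) (ι := {t : L // t ≠ t0} ⊕ P ⊕ Unit)
    (fun s => match s with
      | Sum.inl t => dtK (cr (l t) (l t0))
      | Sum.inr (Sum.inl i) => Submodule.comap (crL (l t0)) (crK (w i))
      | Sum.inr (Sum.inr _) => crK (l t0)) (by
      rintro (t | i | _)
      · exact exists_notMem_dtK (ht0 t.1 t.2)
      · exact exists_notMem_both (h6 t0) (h4 i)
      · exact exists_notMem_crK (h6 t0))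
  have a1 : ∀ t, t ≠ t0 → dt (l t) (cr (l t0) y) ≠ 0 := fun t ht h0 => hy (Sum.inl ⟨t, ht⟩) (by
    show dt y (cr (l t) (l t0)) = 0
    rw [← h0]
    simp only [dt_def, cr0, cr1, cr2]
    ring)
  have a2 : ∀ i, cr (cr (l t0) y) (w i) ≠ 0 := fun i => hy (Sum.inr (Sum.inl i))
  have a3 : cr (l t0) y ≠ 0 := fun h => hy (Sum.inr (Sum.inr ())) (by
    show cr y (l t0) = 0
    rw [cr_anti, h, neg_zero])
  have a4 : dt (l t0) (cr (l t0) y) = 0 := by
    simp only [dt_def, cr0, cr1, cr2]
    ring
  refine HasConf.add h1 h2 h4 h5 h6 ⟨t0, ht0⟩ h8 (cr (l t0) y) a3 a2 ?_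
  intro _ _
  have e : (Finset.univ.filter fun t : L => dt (l t) (cr (l t0) y) = 0) = {t0} := by
    ext t
    simp only [Finset.mem_filter, Finset.mem_univ, true_and, Finset.mem_singleton]
    constructor
    · intro h
      by_contra hne
      exact a1 t hne h
    · rintro rfl
      exact a4
  have e' : (Finset.univ.filter fun t : L => dt (l t) (cr (l t0) y) = 0).card = 1 := by
    rw [e, Finset.card_singleton]
  rw [← h3]
  convert congrArg (fun z => (Finset.univ.filter fun q : L × P => dt (l q.1) (w q.2) = 0).card + z)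
    e' using 2
  congr

theorem HasConf.reach [Infinite k] {p n m s : ℕ} (h : HasConf k p n m s) {n' s' : ℕ}
    (hs : s ≤ s') (hn : n + (s' - s) ≤ n') : HasConf k p n' m s' := by
  have h1 : ∀ i, HasConf k p (n + i) m (s + i) := by
    intro i
    induction i with
    | zero => exact h
    | succ i ih => exact ih.padLine
  have h2 : ∀ i, HasConf k p (n + (s' - s) + i) m s' := by
    intro i
    induction i with
    | zero =>
      have := h1 (s' - s)
      rwa [show s + (s' - s) = s' by omega] at this
    | succ i ih => exact ih.pad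
  have := h2 (n' - (n + (s' - s)))
  rwa [show n + (s' - s) + (n' - (n + (s' - s))) = n' by omega] at this

end

end Pool.Agent.KS6_28.HC
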